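import Pool.Agent.Lib.BLQ.Defs
import Pool.Agent.Lib.KL.Formula

/-!
Project BLQ (MP_ef2672): row BND1, the bounds on the imaginary axis (helper61, from BLP/BND1).
-/

set_option autoImplicit false

open Complex MeasureTheory Finset Set

namespace Pool.Agent.BLQ

open Pool.Agent.KL Pool.Agent.BLP Pool.Agent.Lib.MP_ef2672_gt_Tauber

noncomputable section

/-- `Re φ(-i/y)`, extended by `0` at `y = 0` -/
def rB (φ : ℂ → ℂ) (y : ℝ) : ℝ := if y = 0 then 0 else (φ (((-y⁻¹ : ℝ) : ℂ) * I)).re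

lemma bnd1_eF {φ : ℂ → ℂ} {p1 B A A2 : ℝ} (H : HQ φ p1 B A A2) (y t : ℝ) (hy : |y| ≤ 1) :
    (eF φ ((y : ℂ) * I) t).re ≤ 2 * rB φ y + A2 * (t ^ 2 / (1 + t ^ 2)) := by
  have hX0 : 0 ≤ A2 * (t ^ 2 / (1 + t ^ 2)) := mul_nonneg H.hA2 (by positivity)
  rcases eq_or_ne y 0 with rfl | hy0
  · rw [rB, if_pos rfl, eF, if_pos (by simp)]
    simpa using hX0
  · have hyc : (y : ℂ) ≠ 0 := by exact_mod_cast hy0
    have hyp : 0 < |y| := abs_pos.2 hy0
    have hY : 1 ≤ |(-y⁻¹ : ℝ)| := by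
      rw [abs_neg, abs_inv]
      exact (one_le_inv₀ hyp).2 hy
    have h1 := H.sec (-y⁻¹) t hY
    have h2 : (1 + (t : ℂ) * I) / ((y : ℂ) * I) =
        ((-y⁻¹ : ℝ) : ℂ) * I - (((-y⁻¹) * t : ℝ) : ℂ) := by
      push_cast
      field_simp
      ring_nf
      rw [I_sq]
      ring
    have h3 : (1 - (t : ℂ) * I) / ((y : ℂ) * I) =
        ((-y⁻¹ : ℝ) : ℂ) * I + (((-y⁻¹) * t : ℝ) : ℂ) := by
      push_cast
      field_simp
      ring_nf
      rw [I_sq]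
      ring
    rw [rB, if_neg hy0, eF, if_neg (mul_ne_zero hyc I_ne_zero), h2, h3, add_comm (φ _)]
    exact h1

lemma bnd1_Ef {n : ℕ} (hn : 2 ≤ n) (he : Even n) {ε : ℝ} (hε : 0 ≤ ε) {φ : ℂ → ℂ} {A2 : ℝ}
    (hest : ∀ y t : ℝ, |y| ≤ 1 → (eF φ ((y : ℂ) * I) t).re ≤
      2 * rB φ y + A2 * (t ^ 2 / (1 + t ^ 2)))
    (hεA : ε * A2 ≤ 1 / 2) {y m : ℝ} (hy : y ^ (2 * n) ≤ 1 / 2) (hy1 : |y| ≤ 1)
    (hm : rB φ y ≤ m) (t : ℝ) :
    ‖Ef n ε φ ((y : ℂ) * I) t‖ ≤ 2 * Real.exp (2 * n * ε * m) * (1 + t ^ 2)⁻¹ := by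
  obtain ⟨k, hk⟩ := he
  have he : Even n := ⟨k, hk⟩
  have hT0 : 0 < 1 + t ^ 2 := by positivity
  have hT1 : 1 ≤ 1 + t ^ 2 := by nlinarith [sq_nonneg t]
  have h1 := le_norm_prod_im (n := n) (by omega) he y t
  rw [mul_comm I (y : ℂ)] at h1
  have h2 : (1 : ℝ) ≤ (1 + t ^ 2) ^ n := one_le_pow₀ hT1
  have h3 : (1 + t ^ 2) ^ n / 2 ≤ ‖∏ j ∈ range n, ((1 - zt n j * ((y : ℂ) * I)) ^ 2 + (t : ℂ) ^ 2)‖ := by
    linarith
  have hX : t ^ 2 / (1 + t ^ 2) ≤ Real.log (1 + t ^ 2) := by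
    have h4 := Real.one_sub_inv_le_log_of_pos hT0
    have h5 : t ^ 2 / (1 + t ^ 2) = 1 - (1 + t ^ 2)⁻¹ := by field_simp; ring
    rw [h5]
    exact h4
  have hX0 : 0 ≤ t ^ 2 / (1 + t ^ 2) := by positivity
  have hlog : 0 ≤ Real.log (1 + t ^ 2) := Real.log_nonneg hT1
  have h6 : (n : ℝ) * ε * (eF φ ((y : ℂ) * I) t).re ≤ 2 * n * ε * m + k * Real.log (1 + t ^ 2) := by
    have h7 := hest y t hy1
    have h8 : (n : ℝ) * ε * (eF φ ((y : ℂ) * I) t).re ≤ n * ε * (2 * m + A2 * (t ^ 2 / (1 + t ^ 2))) :=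
      mul_le_mul_of_nonneg_left (by linarith) (by positivity)
    have h9 : ε * A2 * (t ^ 2 / (1 + t ^ 2)) ≤ 1 / 2 * Real.log (1 + t ^ 2) :=
      (mul_le_mul_of_nonneg_right hεA hX0).trans (mul_le_mul_of_nonneg_left hX (by norm_num))
    have h10 : (n : ℝ) = 2 * k := by
      rw [hk]
      push_cast
      ring
    have h11 : (n : ℝ) * (ε * A2 * (t ^ 2 / (1 + t ^ 2))) ≤ n * (1 / 2 * Real.log (1 + t ^ 2)) :=
      mul_le_mul_of_nonneg_left h9 (Nat.cast_nonneg n)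
    have h12 : (n : ℝ) * (1 / 2 * Real.log (1 + t ^ 2)) = k * Real.log (1 + t ^ 2) := by
      rw [h10]
      ring
    nlinarith
  have h7 : ‖Complex.exp ((n : ℂ) * (ε : ℂ) * eF φ ((y : ℂ) * I) t)‖ ≤
      Real.exp (2 * n * ε * m) * (1 + t ^ 2) ^ k := by
    rw [Complex.norm_exp]
    have h8 : ((n : ℂ) * (ε : ℂ) * eF φ ((y : ℂ) * I) t).re = n * ε * (eF φ ((y : ℂ) * I) t).re := by
      rw [show (n : ℂ) * (ε : ℂ) = ((n * ε : ℝ) : ℂ) by push_cast; rfl, Complex.re_ofReal_mul]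
    rw [h8]
    refine (Real.exp_le_exp.2 h6).trans (le_of_eq ?_)
    rw [Real.exp_add, Real.exp_nat_mul, Real.exp_log hT0]
  unfold Ef
  rw [norm_div]
  have hk1 : 1 ≤ k := by omega
  calc ‖Complex.exp ((n : ℂ) * (ε : ℂ) * eF φ ((y : ℂ) * I) t)‖ /
        ‖∏ j ∈ range n, ((1 - zt n j * ((y : ℂ) * I)) ^ 2 + (t : ℂ) ^ 2)‖
      ≤ (Real.exp (2 * n * ε * m) * (1 + t ^ 2) ^ k) / ((1 + t ^ 2) ^ n / 2) :=
        div_le_div₀ (by positivity) h7 (by positivity) h3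
    _ = 2 * Real.exp (2 * n * ε * m) * ((1 + t ^ 2) ^ k)⁻¹ := by
        rw [hk, pow_add]
        field_simp
    _ ≤ 2 * Real.exp (2 * n * ε * m) * (1 + t ^ 2)⁻¹ := by
        refine mul_le_mul_of_nonneg_left (inv_anti₀ hT0 (le_self_pow₀ hT1 (by omega))) (by positivity)

lemma bnd1_Psi2 {n : ℕ} (hn : 2 ≤ n) (he : Even n) {ε : ℝ} (hε : 0 ≤ ε) {φ : ℂ → ℂ} {A2 : ℝ}
    (hest : ∀ y t : ℝ, |y| ≤ 1 → (eF φ ((y : ℂ) * I) t).re ≤
      2 * rB φ y + A2 * (t ^ 2 / (1 + t ^ 2)))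
    (hεA : ε * A2 ≤ 1 / 2) {y m : ℝ} (hy : y ^ (2 * n) ≤ 1 / 2) (hy1 : |y| ≤ 1)
    (hm : rB φ y ≤ m) :
    ‖Psi2 n ε φ ((y : ℂ) * I)‖ ≤ Real.exp (2 * n * ε * m) := by
  have hI : ‖∫ t : ℝ, Ef n ε φ ((y : ℂ) * I) t‖ ≤ 2 * Real.exp (2 * n * ε * m) * Real.pi := by
    refine (norm_integral_le_of_norm_le (integrable_inv_one_add_sq.const_mul (2 * Real.exp (2 * n * ε * m)))
      (Filter.Eventually.of_forall (bnd1_Ef hn he hε hest hεA hy hy1 hm))).trans (le_of_eq ?_)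
    rw [integral_const_mul, integral_univ_inv_one_add_sq]
  unfold Psi2
  have h5 : ‖((2 * (Real.pi : ℂ))⁻¹ : ℂ)‖ = (2 * Real.pi)⁻¹ := by
    rw [show ((2 * (Real.pi : ℂ))⁻¹ : ℂ) = (((2 * Real.pi)⁻¹ : ℝ) : ℂ) by push_cast; rfl,
      Complex.norm_real, Real.norm_of_nonneg (by positivity)]
  rw [norm_mul, h5, inv_mul_le_iff₀ (by positivity)]
  linarith

theorem bnd1 : BND1 := by
  intro φ p1 B A A2 HH ε hε hεA n hn he h Ψ H
  have hest := bnd1_eF HH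
  have key : ∀ y m : ℝ, 0 ≤ m → rB φ y ≤ m →
      ‖Ψ ((y : ℂ) * I)‖ ≤ 2 * Real.exp (2 * n * ε * m) := by
    intro y m hm0 hm
    have hexp : 1 ≤ Real.exp (2 * n * ε * m) := Real.one_le_exp (by positivity)
    have hny : ‖(y : ℂ) * I‖ = |y| := by
      rw [norm_mul, Complex.norm_I, mul_one, Complex.norm_real, Real.norm_eq_abs]
    rcases le_or_gt (y ^ (2 * n)) (1 / 2) with hy | hy
    · have hlt : |y| < 1 := by
        by_contra hge
        have h1 : (1 : ℝ) ≤ |y| ^ (2 * n) := one_le_pow₀ (not_lt.1 hge)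
        rw [(even_two_mul n).pow_abs] at h1
        linarith
      rw [H.near _ (by simp) (by rw [hny]; exact hlt)]
      have := bnd1_Psi2 (by omega) he hε hest hεA hy hlt.le hm
      linarith
    · have hy0 : y ≠ 0 := by
        rintro rfl
        rw [zero_pow (by omega)] at hy
        linarith
      have hyp : 0 < |y| := abs_pos.2 hy0
      have h1 := H.far ((y : ℂ) * I) (by simp) (mul_ne_zero (by exact_mod_cast hy0) I_ne_zero)
      rw [hny] at h1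
      have h2 : (|y| ^ (2 * n - 1))⁻¹ ≤ 2 := by
        rw [inv_le_comm₀ (by positivity) (by norm_num)]
        rcases le_or_gt 1 |y| with h3 | h3
        · have := one_le_pow₀ h3 (n := 2 * n - 1)
          linarith
        · rw [← (even_two_mul n).pow_abs] at hy
          have h4 : |y| ^ (2 * n) ≤ |y| ^ (2 * n - 1) := pow_le_pow_of_le_one hyp.le h3.le (by omega)
          linarith
      linarith
  refine ⟨fun y => ?_, fun y hy => ?_⟩
  · refine key y B HH.hB ?_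
    unfold rB
    split_ifs
    · exact HH.hB
    · exact HH.top _
  · have h1 := key y 0 le_rfl ?_
    · rwa [mul_zero, Real.exp_zero, mul_one] at h1
    · unfold rB
      split_ifs with hy0
      · exact le_rfl
      · have hyp : 0 < |y| := abs_pos.2 hy0
        refine HH.sign _ ?_
        rw [abs_neg, abs_inv]
        rcases hy with hy | hy
        · right
          rw [le_inv_comm₀ (by norm_num) hyp]
          exact hy.trans (by norm_num)
        · left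
          rw [inv_le_comm₀ hyp (by norm_num)]
          exact le_trans (by norm_num) hy

end

end Pool.Agent.BLQ
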