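import Pool.Agent.Lib.BLQ.Defs
import Pool.Agent.Lib.BLP.BND2

/-!
# Project BLQ (MP_ef2672), row BND2 (helper60)
-/

set_option autoImplicit false

namespace Pool.Agent.BLQ

open Complex MeasureTheory Finset
open scoped Real
open Pool.Agent.KL Pool.Agent.BLP

noncomputable section

namespace BND2x

/-- the exponent for real `s` -/
def eR (φ : ℂ → ℂ) (s t : ℝ) : ℝ := (eF φ s t).re

lemma mem_Om {s : ℝ} (hs : 0 < s) (t : ℝ) : (1 + (t : ℂ) * I) / s ∈ Om := by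
  left
  have h : ((1 + (t : ℂ) * I) / s).re = 1 / s := by
    rw [Complex.div_ofReal_re]
    simp
  rw [h]
  positivity

lemma conj_z (s t : ℝ) : (1 - (t : ℂ) * I) / s = (starRingEnd ℂ) ((1 + (t : ℂ) * I) / s) := by
  rw [map_div₀, map_add, map_mul, conj_ofReal, conj_ofReal, conj_I, map_one]
  congr 1
  ring

lemma eF_pos {φ : ℂ → ℂ} {p1 B A A2 : ℝ} (hq : HQ φ p1 B A A2) {s : ℝ} (hs : 0 < s) (t : ℝ) :
    eF φ s t = ((2 * (φ ((1 + (t : ℂ) * I) / s)).re : ℝ) : ℂ) := by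
  unfold eF
  rw [if_neg (by exact_mod_cast hs.ne'), conj_z, hq.conj _ (mem_Om hs t), Complex.add_conj]

lemma eF_zero (φ : ℂ → ℂ) (t : ℝ) : eF φ ((0 : ℝ) : ℂ) t = 0 := by
  unfold eF
  rw [if_pos (by simp)]

lemma eF_real {φ : ℂ → ℂ} {p1 B A A2 : ℝ} (hq : HQ φ p1 B A A2) {s : ℝ} (hs : 0 ≤ s) (t : ℝ) :
    eF φ s t = (eR φ s t : ℂ) := by
  unfold eR
  rcases hs.eq_or_lt with rfl | hs
  · rw [eF_zero]
    simp
  · rw [eF_pos hq hs, Complex.ofReal_re]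

lemma norm_z_sq {s : ℝ} (hs : 0 < s) (t : ℝ) :
    ‖(1 + (t : ℂ) * I) / s‖ ^ 2 = (1 + t ^ 2) / s ^ 2 := by
  rw [norm_div, div_pow, Complex.norm_real, Real.norm_of_nonneg hs.le, ← Complex.normSq_eq_norm_sq,
    Complex.normSq_apply]
  simp
  ring

lemma eR_bound {φ : ℂ → ℂ} {p1 B A A2 : ℝ} (hq : HQ φ p1 B A A2) {s : ℝ} (hs : 0 ≤ s) (hs1 : s ≤ 1)
    (t : ℝ) : |eR φ s t - 2 * p1 * s / (1 + t ^ 2)| ≤ 2 * A * s ^ 2 := by
  have hA := hq.hA
  unfold eR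
  rcases hs.eq_or_lt with rfl | hs
  · rw [eF_zero]
    simp
  · rw [eF_pos hq hs, Complex.ofReal_re]
    set z : ℂ := (1 + (t : ℂ) * I) / s with hz
    have hT : 0 < 1 + t ^ 2 := by positivity
    have h2 := norm_z_sq hs t
    rw [← hz] at h2
    have h3 : 1 ≤ ‖z‖ ^ 2 := by
      rw [h2, le_div_iff₀ (by positivity), one_mul]
      nlinarith [sq_nonneg t]
    have h4 : 1 ≤ ‖z‖ := by
      by_contra hcon
      rw [not_le] at hcon
      have := norm_nonneg z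
      nlinarith
    have h5 := hq.inf z (mem_Om hs t) h4
    have h6 : A / ‖z‖ ^ 2 ≤ A * s ^ 2 := by
      rw [h2, div_div_eq_mul_div]
      refine div_le_self (by positivity) ?_
      nlinarith [sq_nonneg t]
    have h7 : ((p1 : ℂ) / z).re = p1 * s / (1 + t ^ 2) := by
      have hne : (1 + (t : ℂ) * I) ≠ 0 := by
        intro h
        have := congrArg Complex.re h
        simp at this
      rw [hz, div_div_eq_mul_div, Complex.div_re, Complex.normSq_apply]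
      simp
      field_simp
    have h8 : |(φ z - (p1 : ℂ) / z).re| ≤ A * s ^ 2 := (Complex.abs_re_le_norm _).trans (h5.trans h6)
    rw [Complex.sub_re, h7] at h8
    have h9 : 2 * (φ z).re - 2 * p1 * s / (1 + t ^ 2) = 2 * ((φ z).re - p1 * s / (1 + t ^ 2)) := by
      ring
    rw [h9, abs_mul, abs_two]
    linarith

lemma eR_continuous {φ : ℂ → ℂ} {p1 B A A2 : ℝ} (hq : HQ φ p1 B A A2) {s : ℝ} (hs : 0 ≤ s) :
    Continuous (fun t => eR φ s t) := by
  rcases hs.eq_or_lt with rfl | hs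
  · have : (fun t => eR φ 0 t) = fun _ => 0 := by
      funext t
      unfold eR
      rw [eF_zero]
      simp
    rw [this]
    exact continuous_const
  · have h1 : (fun t : ℝ => eR φ s t) = fun t : ℝ => 2 * (φ ((1 + (t : ℂ) * I) / s)).re := by
      funext t
      unfold eR
      rw [eF_pos hq hs, Complex.ofReal_re]
    rw [h1]
    have h2 : Continuous fun t : ℝ => (1 + (t : ℂ) * I) / (s : ℂ) := by fun_prop
    have h3 : Continuous fun t : ℝ => φ ((1 + (t : ℂ) * I) / s) := by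
      rw [continuous_iff_continuousAt]
      intro t
      exact ContinuousAt.comp (g := φ) (hq.diff _ (mem_Om hs t)).continuousAt h2.continuousAt
    exact continuous_const.mul (Complex.continuous_re.comp h3)

lemma eR_le {φ : ℂ → ℂ} {p1 B A A2 : ℝ} (hq : HQ φ p1 B A A2) {s : ℝ} (hs : 0 ≤ s) (t : ℝ) :
    eR φ s t ≤ 2 * A := by
  have hA := hq.hA
  unfold eR
  rcases hs.eq_or_lt with rfl | hs
  · rw [eF_zero]
    simpa using hA
  · rw [eF_pos hq hs, Complex.ofReal_re]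
    have h1 := hq.bd _ (mem_Om hs t)
    have h2 := Complex.re_le_norm (φ ((1 + (t : ℂ) * I) / s))
    linarith

section real

variable {n : ℕ} {ζ : Fin n → ℂ}

variable (h1 : ∀ j, ‖ζ j‖ = 1) (h2 : ∀ j, (ζ j).re ≤ 0)

/-- the integrand for real `s` -/
def gR (n : ℕ) (ζ : Fin n → ℂ) (ε : ℝ) (φ : ℂ → ℂ) (s t : ℝ) : ℝ := Real.exp (n * ε * eR φ s t) / RR ζ s t

include h1 h2

lemma gR_integrable {ε : ℝ} (hε : 0 ≤ ε) {φ : ℂ → ℂ} {p1 B A A2 : ℝ} (hq : HQ φ p1 B A A2) {s : ℝ} (hs : 0 ≤ s) (hs1 : s ≤ 1)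
    (hn : 1 ≤ n) : Integrable (fun t => gR n ζ ε φ s t) := by
  have hc : Continuous (fun t => gR n ζ ε φ s t) := by
    unfold gR
    exact (Real.continuous_exp.comp (continuous_const.mul (eR_continuous hq hs))).div (RR_continuous s)
      fun t => (RR_pos h1 h2 hs hs1 t).ne'
  refine ((RR_integrable h1 h2 hs hs1 hn).const_mul (Real.exp (n * ε * (2 * A)))).mono'
    hc.aestronglyMeasurable (Filter.Eventually.of_forall fun t => ?_)
  have h3 := RR_pos h1 h2 hs hs1 t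
  have h4 : eR φ s t ≤ 2 * A := eR_le hq hs t
  rw [Real.norm_eq_abs, gR, abs_of_pos (div_pos (Real.exp_pos _) h3), div_eq_mul_one_div]
  refine mul_le_mul_of_nonneg_right (Real.exp_le_exp.2 ?_) (one_div_pos.2 h3).le
  exact mul_le_mul_of_nonneg_left h4 (by positivity)

/-- the lower bound for real `s` -/
theorem psi2_lower {ε : ℝ} (hε : 0 ≤ ε) {φ : ℂ → ℂ} {p1 B A A2 : ℝ} (hq : HQ φ p1 B A A2) {s : ℝ} (hs : 0 ≤ s) (hs1 : s ≤ 1)
    (hn : 1 ≤ n) (hS : 0 ≤ SS ζ - n * ε * p1) :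
    Real.exp (-(2 * s * (SS ζ - n * ε * p1) + (1 + 2 * (ε * A)) * n * s ^ 2)) *
      ∫ t : ℝ, 1 / (1 + t ^ 2) ^ n ≤ ∫ t, gR n ζ ε φ s t := by
  rw [← integral_const_mul]
  refine integral_mono_of_nonneg (Filter.Eventually.of_forall fun t => by positivity)
    (gR_integrable h1 h2 hε hq hs hs1 hn) (Filter.Eventually.of_forall fun t => ?_)
  have hT0 : 0 < 1 + t ^ 2 := by positivity
  have hT1 : 1 ≤ 1 + t ^ 2 := by nlinarith [sq_nonneg t]
  have h3 := RR_le' h1 (s := s) t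
  have h4 := RR_pos h1 h2 hs hs1 t
  have h5 := one_div_le_one_div_of_le h4 h3
  have h6 := (abs_le.1 (eR_bound hq hs hs1 t)).1
  have h7 : 1 / (1 + t ^ 2) ≤ 1 := by rw [div_le_one hT0]; exact hT1
  have h8 : 0 ≤ 1 / (1 + t ^ 2) := by positivity
  simp only
  rw [gR, div_eq_mul_one_div (Real.exp _) (RR ζ s t)]
  have h9 : -(2 * s * (SS ζ - n * ε * p1) + (1 + 2 * (ε * A)) * n * s ^ 2) ≤
      n * ε * eR φ s t - (2 * s * SS ζ + n * s ^ 2) / (1 + t ^ 2) := by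
    have e1 : (n : ℝ) * ε * (2 * p1 * s / (1 + t ^ 2) - 2 * A * s ^ 2) ≤ n * ε * eR φ s t :=
      mul_le_mul_of_nonneg_left (by linarith) (by positivity)
    have e2 : 2 * s * (SS ζ - n * ε * p1) * (1 / (1 + t ^ 2)) ≤
        2 * s * (SS ζ - n * ε * p1) * 1 := mul_le_mul_of_nonneg_left h7 (by positivity)
    have e3 : (n : ℝ) * s ^ 2 * (1 / (1 + t ^ 2)) ≤ n * s ^ 2 * 1 := mul_le_mul_of_nonneg_left h7 (by positivity)
    have e4 : (2 * s * SS ζ + n * s ^ 2) / (1 + t ^ 2) =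
        2 * s * (SS ζ - n * ε * p1) * (1 / (1 + t ^ 2)) + n * s ^ 2 * (1 / (1 + t ^ 2)) +
        n * ε * (2 * p1 * s / (1 + t ^ 2)) := by ring
    rw [e4]
    nlinarith [e1, e2, e3]
  calc Real.exp (-(2 * s * (SS ζ - n * ε * p1) + (1 + 2 * (ε * A)) * n * s ^ 2)) *
        (1 / (1 + t ^ 2) ^ n)
      ≤ Real.exp (n * ε * eR φ s t - (2 * s * SS ζ + n * s ^ 2) / (1 + t ^ 2)) * (1 / (1 + t ^ 2) ^ n) :=
        mul_le_mul_of_nonneg_right (Real.exp_le_exp.2 h9) (by positivity)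
    _ = Real.exp (n * ε * eR φ s t) *
        (1 / ((1 + t ^ 2) ^ n * Real.exp ((2 * s * SS ζ + n * s ^ 2) / (1 + t ^ 2)))) := by
        rw [Real.exp_sub]
        field_simp
    _ ≤ _ := mul_le_mul_of_nonneg_left h5 (Real.exp_pos _).le

/-- the upper bound for real `s` -/
theorem psi2_upper {ε : ℝ} (hε : 0 ≤ ε) {φ : ℂ → ℂ} {p1 B A A2 : ℝ} (hq : HQ φ p1 B A A2) {s : ℝ} (hs : 0 ≤ s) (hs1 : s ≤ 1)
    (hn : 1 ≤ n) (hS : 0 ≤ SS ζ - n * ε * p1) (hS' : 2 * s * (SS ζ - n * ε * p1) ≤ n - 1) :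
    ∫ t, gR n ζ ε φ s t ≤ Real.pi * Real.exp (-(2 * s * (SS ζ - n * ε * p1)) +
      (3 + 2 * (ε * A)) * n * s ^ 2) := by
  set S' : ℝ := SS ζ - n * ε * p1 with hS'd
  have hA : 0 ≤ 2 * s * S' := by positivity
  have hint : ∫ t : ℝ, Real.exp (-(2 * s * S') + (3 + 2 * (ε * A)) * n * s ^ 2) * (1 + t ^ 2)⁻¹ =
      Real.pi * Real.exp (-(2 * s * S') + (3 + 2 * (ε * A)) * n * s ^ 2) := by
    rw [integral_const_mul, integral_univ_inv_one_add_sq, mul_comm]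
  rw [← hint]
  refine integral_mono (gR_integrable h1 h2 hε hq hs hs1 hn) (integrable_inv_one_add_sq.const_mul _)
    fun t => ?_
  have hT1 : 1 ≤ 1 + t ^ 2 := by nlinarith [sq_nonneg t]
  have hT0 : 0 < 1 + t ^ 2 := by linarith
  have h3 := RR_ge h1 h2 hs hs1 t
  have h3' := RR_pos h1 h2 hs hs1 t
  have h6 := (abs_le.1 (eR_bound hq hs hs1 t)).2
  -- `exp(A/T) T^n ≥ exp(A) T`
  have h4 : Real.exp (2 * s * S') * (1 + t ^ 2) ≤ (1 + t ^ 2) ^ n * Real.exp (2 * s * S' / (1 + t ^ 2)) := by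
    have h5 : 1 - 1 / (1 + t ^ 2) ≤ Real.log (1 + t ^ 2) := by
      have := Real.one_sub_inv_le_log_of_pos hT0
      rwa [one_div]
    have h6 : (1 + t ^ 2) ^ n = Real.exp (n * Real.log (1 + t ^ 2)) := by
      rw [Real.exp_nat_mul, Real.exp_log hT0]
    have hl : 0 ≤ Real.log (1 + t ^ 2) := Real.log_nonneg hT1
    have h66 : Real.exp (2 * s * S') * (1 + t ^ 2) =
        Real.exp (2 * s * S' + Real.log (1 + t ^ 2)) := by
      rw [Real.exp_add, Real.exp_log hT0]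
    rw [h6, ← Real.exp_add, h66]
    apply Real.exp_le_exp.2
    have h7 : 2 * s * S' * (1 - 1 / (1 + t ^ 2)) ≤ (n - 1) * Real.log (1 + t ^ 2) := by
      calc _ ≤ 2 * s * S' * Real.log (1 + t ^ 2) := by gcongr
        _ ≤ _ := by gcongr
    have h8 : 2 * s * S' / (1 + t ^ 2) = 2 * s * S' * (1 / (1 + t ^ 2)) := by ring
    rw [h8]
    linarith
  have h10 : n * ε * eR φ s t ≤ 2 * s * SS ζ / (1 + t ^ 2) - 2 * s * S' / (1 + t ^ 2) +
      2 * (ε * A) * n * s ^ 2 := by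
    have e1 : n * ε * eR φ s t ≤ n * ε * (2 * p1 * s / (1 + t ^ 2) + 2 * A * s ^ 2) :=
      mul_le_mul_of_nonneg_left (by linarith) (by positivity)
    refine e1.trans (le_of_eq ?_)
    rw [hS'd]
    field_simp
    ring
  change gR n ζ ε φ s t ≤ _
  rw [gR, div_le_iff₀ h3']
  refine (Real.exp_le_exp.2 h10).trans ?_
  refine le_trans ?_ (mul_le_mul_of_nonneg_left h3
    (by positivity : 0 ≤ Real.exp (-(2 * s * S') + (3 + 2 * (ε * A)) * n * s ^ 2) * (1 + t ^ 2)⁻¹))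
  have e1 : Real.exp (2 * s * SS ζ / (1 + t ^ 2) - 2 * s * S' / (1 + t ^ 2) + 2 * (ε * A) * n * s ^ 2) =
      Real.exp (2 * s * SS ζ / (1 + t ^ 2)) * (Real.exp (2 * s * S' / (1 + t ^ 2)))⁻¹ *
        Real.exp (2 * (ε * A) * n * s ^ 2) := by
    rw [Real.exp_add, Real.exp_sub, div_eq_mul_inv]
  have e2 : Real.exp (-(2 * s * S') + (3 + 2 * (ε * A)) * n * s ^ 2) * (1 + t ^ 2)⁻¹ *
      ((1 + t ^ 2) ^ n * Real.exp (2 * s * SS ζ / (1 + t ^ 2) - 3 * n * s ^ 2)) =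
      Real.exp (2 * s * SS ζ / (1 + t ^ 2)) * ((Real.exp (2 * s * S') * (1 + t ^ 2))⁻¹ * (1 + t ^ 2) ^ n) *
        Real.exp (2 * (ε * A) * n * s ^ 2) := by
    rw [show -(2 * s * S') + (3 + 2 * (ε * A)) * n * s ^ 2 =
      -(2 * s * S') + (2 * (ε * A) * n * s ^ 2 + 3 * n * s ^ 2) by ring, Real.exp_add, Real.exp_add,
      Real.exp_sub, Real.exp_neg, mul_inv]
    have := Real.exp_pos (3 * n * s ^ 2)
    field_simp
  rw [e1, e2]
  refine mul_le_mul_of_nonneg_right (mul_le_mul_of_nonneg_left ?_ (Real.exp_pos _).le) (Real.exp_pos _).le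
  rw [inv_mul_eq_div, le_div_iff₀ (by positivity), inv_mul_le_iff₀ (by positivity)]
  linarith

end real

/-- `Psi2` at real points -/
lemma Psi2_real {n : ℕ} (he : Even n) (ε : ℝ) {φ : ℂ → ℂ} {p1 B A A2 : ℝ} (hq : HQ φ p1 B A A2)
    {s : ℝ} (hs : 0 ≤ s) :
    Psi2 n ε φ s = ((1 / (2 * π) * ∫ t : ℝ, gR n (zq n) ε φ s t : ℝ) : ℂ) := by
  have h1 : ∀ t : ℝ, Ef n ε φ s t = ((gR n (zq n) ε φ s t : ℝ) : ℂ) := by
    intro t
    unfold Ef gR
    rw [Finset.prod_range (fun j => ((1 - zt n j * (s : ℂ)) ^ 2 + (t : ℂ) ^ 2))]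
    have h2 := prod_eq_RR he (fun j => zq_rev (n := n) j) s t
    unfold zq at h2
    rw [h2, eF_real hq hs]
    push_cast
    rfl
  unfold Psi2
  simp only [h1]
  rw [integral_complex_ofReal]
  push_cast
  rw [one_div]

lemma psi2_re {n : ℕ} {ε : ℝ} {φ : ℂ → ℂ} {p1 B A A2 : ℝ} {h : ℝ → ℝ} {Ψ : ℂ → ℂ} (he : Even n) (hq : HQ φ p1 B A A2) (H : PsiH n ε φ h Ψ) {s : ℝ}
    (hs : 0 ≤ s) (hs1 : s < 1) : (Ψ (s : ℂ)).re = 1 / (2 * π) * ∫ t : ℝ, gR n (zq n) ε φ s t := by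
  rw [H.near s (by simpa using hs) (by rw [Complex.norm_real, Real.norm_of_nonneg hs]; exact hs1),
    Psi2_real he ε hq hs, Complex.ofReal_re]

lemma psi_low {n : ℕ} {ε : ℝ} {φ : ℂ → ℂ} {p1 B A A2 : ℝ} {h : ℝ → ℝ} {Ψ : ℂ → ℂ} (hn : 1 ≤ n) (he : Even n) (hε : 0 ≤ ε)
    (hq : HQ φ p1 B A A2) (H : PsiH n ε φ h Ψ) (hS : n * ε * p1 ≤ S0 n) {s : ℝ} (hs : 0 ≤ s)
    (hs1 : s < 1) : 1 / (3 * π * √(n : ℝ)) * Real.exp (-(2 * s * (S0 n - n * ε * p1) +
      (1 + 2 * (ε * A)) * n * s ^ 2)) ≤ (Ψ (s : ℂ)).re := by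
  rw [psi2_re he hq H hs hs1]
  have h1 := psi2_lower (ζ := zq n) (fun j => norm_zt n j) (fun j => (zt_re_neg j.2).le) hε hq hs hs1.le hn
    (by rw [SS_zq hn]; linarith)
  rw [SS_zq hn] at h1
  have h2 := psi_zero (n := n) hn
  have hsq : 0 < √(n : ℝ) := Real.sqrt_pos.2 (by exact_mod_cast hn)
  have h3 : 1 / (3 * π * √n) * Real.exp (-(2 * s * (S0 n - n * ε * p1) +
      (1 + 2 * (ε * A)) * n * s ^ 2)) =
      1 / (2 * π) * (Real.exp (-(2 * s * (S0 n - n * ε * p1) +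
      (1 + 2 * (ε * A)) * n * s ^ 2)) * (2 / (3 * √n))) := by
    field_simp
  rw [h3]
  refine mul_le_mul_of_nonneg_left ?_ (by positivity)
  refine le_trans ?_ h1
  exact mul_le_mul_of_nonneg_left h2 (Real.exp_pos _).le

lemma psi_up {n : ℕ} {ε : ℝ} {φ : ℂ → ℂ} {p1 B A A2 : ℝ} {h : ℝ → ℝ} {Ψ : ℂ → ℂ} (hn : 1 ≤ n) (he : Even n) (hε : 0 ≤ ε)
    (hq : HQ φ p1 B A A2) (H : PsiH n ε φ h Ψ) (hS : n * ε * p1 ≤ S0 n) {s : ℝ} (hs : 0 ≤ s)
    (hs1 : s < 1) (hS' : 2 * s * (S0 n - n * ε * p1) ≤ n - 1) :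
    (Ψ (s : ℂ)).re ≤ 1 / 2 * Real.exp (-(2 * s * (S0 n - n * ε * p1)) +
      (3 + 2 * (ε * A)) * n * s ^ 2) := by
  rw [psi2_re he hq H hs hs1]
  have h1 := psi2_upper (ζ := zq n) (fun j => norm_zt n j) (fun j => (zt_re_neg j.2).le) hε hq hs hs1.le hn
    (by rw [SS_zq hn]; linarith) (by rw [SS_zq hn]; exact hS')
  rw [SS_zq hn] at h1
  calc 1 / (2 * π) * ∫ t : ℝ, gR n (zq n) ε φ s t ≤
      1 / (2 * π) * (π * Real.exp (-(2 * s * (S0 n - n * ε * p1)) +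
      (3 + 2 * (ε * A)) * n * s ^ 2)) := mul_le_mul_of_nonneg_left h1 (by positivity)
    _ = _ := by field_simp

end BND2x

open BND2x

theorem bnd2 : BND2 := by
  intro φ p1 B A A2 hq
  have hA := hq.hA
  have hp1 := hq.pos
  refine ⟨14 + 18 * A, 16, by positivity, fun ε hε hε1 n hn he h Ψ H hS => ?_⟩
  have hn1 : 1 ≤ n := by omega
  have hn16 : (16 : ℝ) ≤ n := by exact_mod_cast hn
  have hn0 : (0 : ℝ) < n := by linarith
  have hsq4 : 4 ≤ √(n : ℝ) := by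
    rw [show (4 : ℝ) = √16 by rw [show (16 : ℝ) = 4 ^ 2 by norm_num]; exact (Real.sqrt_sq (by norm_num)).symm]
    exact Real.sqrt_le_sqrt hn16
  have hsq0 : 0 < √(n : ℝ) := by linarith
  have hss : √(n : ℝ) * √(n : ℝ) = n := Real.mul_self_sqrt hn0.le
  have he4 : ee n ≤ 1 / 4 := by
    unfold ee
    exact one_div_le_one_div_of_le (by norm_num) hsq4
  have he0 : 0 < ee n := by
    unfold ee
    positivity
  have hee := ee_sq (n := n) (by omega)
  have hεA : ε * A ≤ A := mul_le_of_le_one_left hA hε1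
  have hεA0 : 0 ≤ ε * A := mul_nonneg hε hA
  have hS0n : S0 n ≤ n := by
    rw [← SS_zq (n := n) (by omega)]
    exact SS_zq_le n
  have hSS : S0 n - n * ε * p1 ≤ n := by
    have : 0 ≤ n * ε * p1 := by positivity
    linarith
  have hlow : ∀ s : ℝ, 0 ≤ s → s < 1 → n * s ^ 2 ≤ 9 →
      Real.exp (-(2 * s * (S0 n - n * ε * p1)) - (14 + 18 * A)) / n ≤ (Ψ (s : ℂ)).re := by
    intro s hs hs1 hs9
    refine le_trans ?_ (psi_low hn1 he hε hq H hS hs hs1)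
    have h1 : Real.exp (-(2 * s * (S0 n - n * ε * p1)) - (14 + 18 * A)) =
        Real.exp (-5) * Real.exp (-(2 * s * (S0 n - n * ε * p1)) - (9 + 18 * A)) := by
      rw [← Real.exp_add]
      congr 1
      ring
    have h2 : Real.exp (-(2 * s * (S0 n - n * ε * p1)) - (9 + 18 * A)) ≤
        Real.exp (-(2 * s * (S0 n - n * ε * p1) + (1 + 2 * (ε * A)) * n * s ^ 2)) := by
      apply Real.exp_le_exp.2
      have h3 : (1 + 2 * (ε * A)) * (n * s ^ 2) ≤ (1 + 2 * A) * 9 :=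
        mul_le_mul (by linarith) hs9 (by positivity) (by linarith)
      nlinarith
    have h4 : Real.exp (-5) / n ≤ 1 / (3 * π * √(n : ℝ)) := by
      rw [div_le_div_iff₀ hn0 (by positivity), one_mul]
      have h5 : Real.exp (-5) ≤ 1 / 10 := by
        rw [Real.exp_neg, ← one_div]
        apply one_div_le_one_div_of_le (by norm_num)
        have h6 := Real.add_one_le_exp (5 : ℝ)
        have h7 : Real.exp 5 = Real.exp 1 ^ 5 := by
          rw [← Real.exp_nat_mul]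
          norm_num
        have h8 : (2 : ℝ) ≤ Real.exp 1 := by
          have := Real.add_one_le_exp (1 : ℝ)
          linarith
        calc (10 : ℝ) ≤ 2 ^ 5 := by norm_num
          _ ≤ Real.exp 1 ^ 5 := pow_le_pow_left₀ (by norm_num) h8 5
          _ = Real.exp 5 := h7.symm
      have h9 : π < 3.15 := Real.pi_lt_d2
      have h10 : √(n : ℝ) * 4 ≤ n := by nlinarith
      have h11 : 3 * π * √(n : ℝ) ≤ 10 * n := by nlinarith [Real.pi_pos]
      calc Real.exp (-5) * (3 * π * √(n : ℝ)) ≤ 1 / 10 * (10 * n) :=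
            mul_le_mul h5 h11 (by positivity) (by norm_num)
        _ = n := by ring
    rw [h1, mul_div_right_comm]
    exact mul_le_mul h4 h2 (Real.exp_pos _).le (by positivity)
  refine ⟨?_, ?_, ?_⟩
  · refine (psi_up hn1 he hε hq H hS he0.le (by linarith) ?_).trans ?_
    · have h1 : 2 * ee n * (S0 n - n * ε * p1) ≤ 2 * ee n * n :=
        mul_le_mul_of_nonneg_left hSS (by linarith)
      have h2 : ee n * n = √(n : ℝ) := by
        unfold ee
        rw [one_div, inv_mul_eq_div, div_eq_iff hsq0.ne', hss]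
      nlinarith
    · refine mul_le_mul_of_nonneg_left (Real.exp_le_exp.2 ?_) (by norm_num)
      have h3 : (3 + 2 * (ε * A)) * n * ee n ^ 2 = 3 + 2 * (ε * A) := by
        rw [mul_assoc, hee, mul_one]
      rw [h3]
      linarith
  · have h1 := hlow (2 * ee n) (by linarith) (by linarith) (by nlinarith)
    have h2 : 2 * (2 * ee n) * (S0 n - n * ε * p1) = 4 * ee n * (S0 n - n * ε * p1) := by ring
    rw [h2] at h1
    exact h1
  · have h1 := hlow (3 * ee n) (by linarith) (by linarith) (by nlinarith)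
    have h2 : 2 * (3 * ee n) * (S0 n - n * ε * p1) = 6 * ee n * (S0 n - n * ε * p1) := by ring
    rw [h2] at h1
    exact h1

end

end Pool.Agent.BLQ
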