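import Pool.Agent.Lib.BLP.Props

/-!
Project BLQ (MP_ef2672): the strict upper bound with an explicit constant.  Definitions and the exact
statements of the rows (helper25).

The difference from BLP: the polynomial `p(1/(z+1))` is replaced by an explicit function `φ(z)`, which
only has to be regular on the set `Om`.
-/

open Complex MeasureTheory Finset Set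

namespace Pool.Agent.BLQ

open Pool.Agent.KL Pool.Agent.BLP Pool.Agent.Lib.MP_ef2672_gt_Tauber

noncomputable section

/-- the set on which the perturbation is used -/
def Om : Set ℂ := {z : ℂ | 0 ≤ z.re ∨ 1 ≤ |z.im|}

/-- the properties of the perturbation -/
structure HQ (φ : ℂ → ℂ) (p1 B A A2 : ℝ) : Prop where
  pos : 0 < p1
  hB : 0 ≤ B
  hA : 0 ≤ A
  hA2 : 0 ≤ A2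
  diff : ∀ z ∈ Om, DifferentiableAt ℂ φ z
  conj : ∀ z ∈ Om, φ ((starRingEnd ℂ) z) = (starRingEnd ℂ) (φ z)
  bd : ∀ z ∈ Om, ‖φ z‖ ≤ A
  inf : ∀ z ∈ Om, 1 ≤ ‖z‖ → ‖φ z - (p1 : ℂ) / z‖ ≤ A / ‖z‖ ^ 2
  top : ∀ Y : ℝ, (φ ((Y : ℂ) * I)).re ≤ B
  sign : ∀ Y : ℝ, (|Y| ≤ 1000 / 999 ∨ 1000 / 998 ≤ |Y|) → (φ ((Y : ℂ) * I)).re ≤ 0
  sec : ∀ Y t : ℝ, 1 ≤ |Y| →
    (φ ((Y : ℂ) * I + ((Y * t : ℝ) : ℂ)) + φ ((Y : ℂ) * I - ((Y * t : ℝ) : ℂ))).re ≤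
      2 * (φ ((Y : ℂ) * I)).re + A2 * (t ^ 2 / (1 + t ^ 2))

/-- `K(z) = e^(n eps φ(z)) / Q(z)` -/
def Kf (n : ℕ) (ε : ℝ) (φ : ℂ → ℂ) (z : ℂ) : ℂ :=
  Complex.exp ((n : ℂ) * (ε : ℂ) * φ z) / ∏ j ∈ range n, (z - zt n j)

/-- `e(s,t)` -/
def eF (φ : ℂ → ℂ) (s : ℂ) (t : ℝ) : ℂ :=
  if s = 0 then 0 else φ ((1 + (t : ℂ) * I) / s) + φ ((1 - (t : ℂ) * I) / s)

/-- the integrand of `Psi2` -/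
def Ef (n : ℕ) (ε : ℝ) (φ : ℂ → ℂ) (s : ℂ) (t : ℝ) : ℂ :=
  Complex.exp ((n : ℂ) * (ε : ℂ) * eF φ s t) /
    ∏ j ∈ range n, ((1 - zt n j * s) ^ 2 + (t : ℂ) ^ 2)

/-- `Psi2(s)` -/
def Psi2 (n : ℕ) (ε : ℝ) (φ : ℂ → ℂ) (s : ℂ) : ℂ :=
  (2 * (Real.pi : ℂ))⁻¹ * ∫ t : ℝ, Ef n ε φ s t

/-- the interface -/
structure PsiH (n : ℕ) (ε : ℝ) (φ : ℂ → ℂ) (h : ℝ → ℝ) (Ψ : ℂ → ℂ) : Prop where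
  pw : ∃ C : ℝ, PWH Ψ C
  hc : Continuous h
  hi : IntegrableOn (fun v => h v ^ 2) (Ioi 0)
  h1 : ∫ v in Ioi (0 : ℝ), h v ^ 2 ≤ 1
  lap : ∀ s : ℝ, 0 < s → Ψ s =
    (((s ^ (2 * n - 1))⁻¹ * ∫ v in Ioi (0 : ℝ), h v ^ 2 * Real.exp (-(2 / s * v)) : ℝ) : ℂ)
  far : ∀ s : ℂ, 0 ≤ s.re → s ≠ 0 → ‖Ψ s‖ ≤ (‖s‖ ^ (2 * n - 1))⁻¹
  near : ∀ s : ℂ, 0 ≤ s.re → ‖s‖ < 1 → Ψ s = Psi2 n ε φ s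

/-- Q06. -/
def KPW : Prop := ∀ n : ℕ, 2 ≤ n → Even n → ∀ ε : ℝ, 0 ≤ ε → ∀ (φ : ℂ → ℂ) (p1 B A A2 : ℝ),
  HQ φ p1 B A A2 → ∃ C : ℝ, PWH (Kf n ε φ) C

/-- Q07. -/
def W0B : Prop := ∀ n : ℕ, 4 ≤ n → Even n → ∀ ε : ℝ, 0 ≤ ε → ∀ (φ : ℂ → ℂ) (p1 B A A2 : ℝ),
  HQ φ p1 B A A2 → 2 * ε * B ≤ 1 / 1000 →
  (2 * Real.pi)⁻¹ * ∫ y : ℝ, ‖Kf n ε φ ((y : ℂ) * I)‖ ^ 2 ≤ 1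

/-- Q09. -/
def P2AN : Prop := ∀ n : ℕ, 2 ≤ n → Even n → ∀ ε : ℝ, 0 ≤ ε → ∀ (φ : ℂ → ℂ) (p1 B A A2 : ℝ),
  HQ φ p1 B A A2 → ContinuousOn (Psi2 n ε φ) ({z : ℂ | 0 ≤ z.re} ∩ Metric.ball 0 1) ∧
    DifferentiableOn ℂ (Psi2 n ε φ) ({z : ℂ | 0 < z.re} ∩ Metric.ball 0 1)

/-- Q10 (from PW2, KPW). -/
def EQS : Prop := ∀ n : ℕ, 2 ≤ n → Even n → ∀ ε : ℝ, 0 ≤ ε → ∀ (φ : ℂ → ℂ) (p1 B A A2 : ℝ),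
  HQ φ p1 B A A2 → ∀ s : ℝ, 0 < s → s < 1 → Psi1 n (gPW (Kf n ε φ)) s = Psi2 n ε φ s

/-- Q11 (from PW2, KPW, W0B, LAPW, P2AN, EQS). -/
def GLUE : Prop := ∀ n : ℕ, 4 ≤ n → Even n → ∀ ε : ℝ, 0 ≤ ε → ∀ (φ : ℂ → ℂ) (p1 B A A2 : ℝ),
  HQ φ p1 B A A2 → 2 * ε * B ≤ 1 / 1000 → ∃ (h : ℝ → ℝ) (Ψ : ℂ → ℂ), PsiH n ε φ h Ψ

/-- Q14. -/
def BND1 : Prop := ∀ (φ : ℂ → ℂ) (p1 B A A2 : ℝ), HQ φ p1 B A A2 → ∀ ε : ℝ, 0 ≤ ε →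
  ε * A2 ≤ 1 / 2 → ∀ n : ℕ, 4 ≤ n → Even n → ∀ (h : ℝ → ℝ) (Ψ : ℂ → ℂ), PsiH n ε φ h Ψ →
    (∀ y : ℝ, ‖Ψ ((y : ℂ) * I)‖ ≤ 2 * Real.exp (2 * n * ε * B)) ∧
    ∀ y : ℝ, (|y| ≤ 998 / 1000 ∨ 999 / 1000 ≤ |y|) → ‖Ψ ((y : ℂ) * I)‖ ≤ 2

/-- Q15. -/
def BND2 : Prop := ∀ (φ : ℂ → ℂ) (p1 B A A2 : ℝ), HQ φ p1 B A A2 → ∃ (D : ℝ) (n1 : ℕ), 0 ≤ D ∧
  ∀ ε : ℝ, 0 ≤ ε → ε ≤ 1 → ∀ n : ℕ, n1 ≤ n → Even n → ∀ (h : ℝ → ℝ) (Ψ : ℂ → ℂ),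
    PsiH n ε φ h Ψ → n * ε * p1 ≤ S0 n →
    (Ψ ((ee n : ℝ) : ℂ)).re ≤
      1 / 2 * Real.exp (-(2 * ee n * (S0 n - n * ε * p1)) + D) ∧
    Real.exp (-(4 * ee n * (S0 n - n * ε * p1)) - D) / n ≤ (Ψ ((2 * ee n : ℝ) : ℂ)).re ∧
    Real.exp (-(6 * ee n * (S0 n - n * ε * p1)) - D) / n ≤ (Ψ ((3 * ee n : ℝ) : ℂ)).re

/-- Q23 (from WIN, QD, SNEG, SJB, THE, BND1, BND2). Claim A. -/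
def CLA : Prop := ∀ (φ : ℂ → ℂ) (p1 B A A2 : ℝ), HQ φ p1 B A A2 → ∀ ε : ℝ, 0 ≤ ε → ε ≤ 1 →
  ε * A2 ≤ 1 / 2 → 2 * ε * B ≤ 1 / 10 ^ 12 → ε * p1 ≤ 1 / 2 →
  ∃ (C3 : ℝ) (n3 : ℕ), 0 ≤ C3 ∧ ∀ n : ℕ, n3 ≤ n → Even n → ∀ (h : ℝ → ℝ) (Ψ : ℂ → ℂ),
    PsiH n ε φ h Ψ → ∀ u : ℝ,
    2 * (S0 n - n * ε * p1) + √(n : ℝ) * (C3 + 2 * Real.log n) ≤ u →
    SnF (gPW Ψ) (ee n) u ≤ thet n u * SJ (chr n) Ψ (ee n) u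

/-- Q26 (from PW2). The test function. -/
def TEST : Prop := ∀ n : ℕ, 4 ≤ n → Even n → ∀ (ε : ℝ) (φ : ℂ → ℂ) (h : ℝ → ℝ) (Ψ : ℂ → ℂ),
  PsiH n ε φ h Ψ → ∃ F : (Fin (4 * n) → ℝ) → ℝ, PosDef F ∧ Integrable F ∧
    (∀ z, z ≠ 0 → F z = (2 * n - 1).factorial * (nsq z ^ (2 * n - 1))⁻¹ *
      SnF (gPW Ψ) (ee n) (nsq z)) ∧
    0 ≤ F 0 ∧ F 0 ≤ 2 ∧ ∫ z, F z = Real.pi ^ (2 * n) * ((Ψ ((3 * ee n : ℝ) : ℂ)).re / 2)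

/-- Q03. The incoherence lemma with an explicit rate. -/
def INC : Prop := ∀ (N : ℕ) (A : Matrix (Fin N) (Fin N) ℝ), 1 ≤ N → PF A →
    (∀ w : Fin N → ℤ, w ≠ 0 → 9 / 100 * N ≤ qf A w) → ∀ τ v : ℝ, 0 < τ → τ ≤ 4975 / 10000 →
    1 / 2 ≤ v → v ≤ 9995 / 10000 →
    ‖th A ((τ : ℂ) + (v : ℂ) * I)‖ ^ 2 ≤
      2 * Real.exp (-(2 / 10 ^ 11 * N)) * (τ ^ N)⁻¹ * TT A ^ 2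

/-- Q04. The perturbation. -/
def PHI : Prop := ∃ (φ : ℂ → ℂ) (A : ℝ), HQ φ (754551 / 125000) 250000 A (10 ^ 29)

/-- Q29 (from everything). -/
def FIN1 : Prop := ∃ n0 : ℕ, ∀ n : ℕ, n0 ≤ n → Even n →
  ∀ A : Matrix (Fin (4 * n)) (Fin (4 * n)) ℝ, |A.det| = 1 →
  ∃ w : Fin (4 * n) → ℤ, w ≠ 0 ∧ Real.pi * qf A w ≤ (1 - 3 / 10 ^ 30) * (4 / Real.pi) * n

/-- Q30 (from FIN1). -/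
def FIN2 : Prop := ∃ n0 : ℕ, ∀ n : ℕ, n0 ≤ n → Even n →
  c (4 * n) ≤ 1 / Real.pi ^ 2 - 2 / 10 ^ 31

/-- Q31 (from FIN2). -/
def FIN3 : Prop := Filter.limsup c Filter.atTop ≤ 1 / Real.pi ^ 2 - 1 / 10 ^ 31 ∧
  ∀ᶠ d : ℕ in Filter.atTop, c d ≤ 1 / Real.pi ^ 2 - 1 / 10 ^ 31

end

end Pool.Agent.BLQ
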