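import Pool.Agent.Lib.BLQ.Defs
import Pool.Agent.Lib.BLP.EQS

/-!
Project BLQ (MP_ef2672): row EQS, `Psi1 = Psi2` on `(0, 1)`.  (helper29, from helper32's BLP/EQS)
-/

open Complex MeasureTheory Finset Set

namespace Pool.Agent.BLQ

open Pool.Agent.KL Pool.Agent.BLP Pool.Agent.Lib.MP_ef2672_gt_Tauber

lemma eqs_point (n : ℕ) (ε : ℝ) (p : ℂ → ℂ) {s t : ℝ} (hs : 0 < s)
    (hc : Kf n ε p ((starRingEnd ℂ) ((1 : ℂ) / s + (t : ℂ) / s * I)) =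
      (starRingEnd ℂ) (Kf n ε p ((1 : ℂ) / s + (t : ℂ) / s * I))) :
    ((‖Kf n ε p ((1 : ℂ) / s + (t : ℂ) / s * I)‖ ^ 2 : ℝ) : ℂ) =
      (s : ℂ) ^ (2 * n) * Ef n ε p s t := by
  have hs' : (s : ℂ) ≠ 0 := by exact_mod_cast hs.ne'
  have hconj : (starRingEnd ℂ) ((1 : ℂ) / s + (t : ℂ) / s * I) = (1 : ℂ) / s - (t : ℂ) / s * I := by
    simp
    ring
  have h1 : ((‖Kf n ε p ((1 : ℂ) / s + (t : ℂ) / s * I)‖ ^ 2 : ℝ) : ℂ) =
      Kf n ε p ((1 : ℂ) / s + (t : ℂ) / s * I) * Kf n ε p ((1 : ℂ) / s - (t : ℂ) / s * I) := by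
    rw [← hconj, hc, Complex.mul_conj, Complex.normSq_eq_norm_sq]
  rw [h1, Kf, Kf, Ef, div_mul_div_comm, ← Complex.exp_add, ← Finset.prod_mul_distrib]
  have h2 : ∏ j ∈ range n, ((((1 : ℂ) / s + (t : ℂ) / s * I) - zt n j) *
      (((1 : ℂ) / s - (t : ℂ) / s * I) - zt n j)) =
      (∏ j ∈ range n, ((1 - zt n j * s) ^ 2 + (t : ℂ) ^ 2)) / (s : ℂ) ^ (2 * n) := by
    rw [Finset.prod_congr rfl fun j _ => eqs_factor hs (zt n j), Finset.prod_div_distrib,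
      Finset.prod_const, Finset.card_range, ← pow_mul]
  have h3 : (1 : ℂ) / s + (t : ℂ) / s * I = (1 + (t : ℂ) * I) / s := by ring
  have h4 : (1 : ℂ) / s - (t : ℂ) / s * I = (1 - (t : ℂ) * I) / s := by ring
  have h5 : (n : ℂ) * (ε : ℂ) * p ((1 : ℂ) / s + (t : ℂ) / s * I) +
      (n : ℂ) * (ε : ℂ) * p ((1 : ℂ) / s - (t : ℂ) / s * I) =
      (n : ℂ) * (ε : ℂ) * eF p s t := by
    rw [eF, if_neg hs', mul_add, h3, h4]
  rw [h2]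
  rw [h5, div_div_eq_mul_div, mul_comm (Complex.exp _) ((s : ℂ) ^ (2 * n)), mul_div_assoc]

theorem eqs (h1 : Pool.Agent.BLP.PW2) (h2 : KPW) : EQS := by
  intro n hn hev ε hε p p1 B A A2 hp s hs0 hs1
  obtain ⟨C, hK⟩ := h2 n hn hev ε hε p p1 B A A2 hp
  have hP := h1 _ C hK
  have hs' : (s : ℂ) ≠ 0 := by exact_mod_cast hs0.ne'
  have hsq := hP.sq (1 / s) (by positivity)
  -- the Laplace transform
  have hW : Wf (gPW (Kf n ε p)) (2 / (s : ℂ)) =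
      ((∫ u in Ioi (0 : ℝ), gPW (Kf n ε p) u ^ 2 * Real.exp (-(2 * (1 / s) * u)) : ℝ) : ℂ) := by
    rw [Wf, ← integral_complex_ofReal]
    refine integral_congr_ae (Filter.Eventually.of_forall fun v => ?_)
    simp only
    push_cast
    congr 2
    ring
  -- change of the variable
  have hcv : ∫ t : ℝ, ‖Kf n ε p (((1 / s : ℝ) : ℂ) + ((t / s : ℝ) : ℂ) * I)‖ ^ 2 =
      s * ∫ y : ℝ, ‖Kf n ε p (((1 / s : ℝ) : ℂ) + (y : ℂ) * I)‖ ^ 2 := by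
    have := Measure.integral_comp_div
      (fun y : ℝ => ‖Kf n ε p (((1 / s : ℝ) : ℂ) + (y : ℂ) * I)‖ ^ 2) s
    rw [abs_of_pos hs0, smul_eq_mul] at this
    exact this
  have hpt : ∀ t : ℝ, ((‖Kf n ε p (((1 / s : ℝ) : ℂ) + ((t / s : ℝ) : ℂ) * I)‖ ^ 2 : ℝ) : ℂ) =
      (s : ℂ) ^ (2 * n) * Ef n ε p s t := by
    intro t
    have he : ((1 / s : ℝ) : ℂ) + ((t / s : ℝ) : ℂ) * I = (1 : ℂ) / s + (t : ℂ) / s * I := by
      push_cast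
      ring
    rw [he]
    refine eqs_point n ε p hs0 (hK.conj _ ?_)
    rw [← he]
    simp
    exact hs0.le
  have hint : ((∫ t : ℝ, ‖Kf n ε p (((1 / s : ℝ) : ℂ) + ((t / s : ℝ) : ℂ) * I)‖ ^ 2 : ℝ) : ℂ) =
      (s : ℂ) ^ (2 * n) * ∫ t : ℝ, Ef n ε p s t := by
    rw [← integral_complex_ofReal, ← integral_const_mul]
    exact integral_congr_ae (Filter.Eventually.of_forall hpt)
  have hI : ((∫ y : ℝ, ‖Kf n ε p (((1 / s : ℝ) : ℂ) + (y : ℂ) * I)‖ ^ 2 : ℝ) : ℂ) =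
      (s : ℂ) ^ (2 * n) / s * ∫ t : ℝ, Ef n ε p s t := by
    have h3 := hint
    rw [hcv] at h3
    push_cast at h3
    rw [div_mul_eq_mul_div, eq_div_iff hs']
    rw [mul_comm] at h3
    push_cast
    exact h3
  have hs2 : (s : ℂ) ^ (2 * n) = (s : ℂ) ^ (2 * n - 1) * s := by
    rw [← pow_succ]
    congr 1
    omega
  rw [Psi1, Psi2, hW, hsq]
  push_cast at hI ⊢
  rw [hI, hs2]
  field_simp

end Pool.Agent.BLQ
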