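import Pool.Agent.Lib.BLQ.Defs
import Pool.Agent.Lib.MP_ef2672_gt_Tauber.Counts
import Pool.Agent.Lib.KL.Limit

/-!
Project BLQ, rows Q30, Q31: from lattices of determinant one to Hermite's constant, all dimensions.
-/

namespace Pool.Agent.BLQ

open Filter Topology Pool.Agent.BLP Pool.Agent.Lib.MP_ef2672_gt_Tauber

theorem fin2 : BLQ.FIN1 → BLQ.FIN2 := by
  rintro ⟨n0, H⟩
  have hpi := Real.pi_pos
  have hpi2 : Real.pi ^ 2 ≤ 10 := by
    have := Real.pi_lt_d2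
    nlinarith
  have hnum : (2 : ℝ) / 10 ^ 31 ≤ 3 / 10 ^ 30 / Real.pi ^ 2 := by
    rw [le_div_iff₀ (by positivity)]
    calc (2 : ℝ) / 10 ^ 31 * Real.pi ^ 2 ≤ 2 / 10 ^ 31 * 10 := by gcongr
      _ ≤ 3 / 10 ^ 30 := by norm_num
  refine ⟨max n0 1, fun n hn he => ?_⟩
  have hn1 : n0 ≤ n := le_trans (le_max_left _ _) hn
  have hn2 : 1 ≤ n := le_trans (le_max_right _ _) hn
  have hn0 : (0 : ℝ) < n := by exact_mod_cast hn2
  obtain ⟨δ, hδ⟩ : ∃ δ : ℝ, δ = 3 / 10 ^ 30 := ⟨_, rfl⟩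
  rw [← hδ] at hnum
  have hg : gamma (4 * n) ≤ (1 - δ) * (4 * n) / Real.pi ^ 2 := by
    refine le_of_forall_gt_imp_ge_of_dense fun r hr => ?_
    refine gamma_le_of_short (by omega) fun A hA => ?_
    obtain ⟨w, hw, h1⟩ := H n hn1 he A hA
    rw [← hδ] at h1
    refine ⟨w, hw, lt_of_le_of_lt ?_ hr⟩
    have h2 : qf A w ≤ (1 - δ) * (4 * n) / Real.pi ^ 2 := by
      rw [le_div_iff₀ (by positivity)]
      have h3 : Real.pi * (Real.pi * qf A w) ≤ Real.pi * ((1 - δ) * (4 / Real.pi) * n) :=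
        mul_le_mul_of_nonneg_left h1 hpi.le
      have h4 : Real.pi * ((1 - δ) * (4 / Real.pi) * n) = (1 - δ) * (4 * n) := by
        field_simp
      rw [h4] at h3
      calc qf A w * Real.pi ^ 2 = Real.pi * (Real.pi * qf A w) := by ring
        _ ≤ _ := h3
    exact h2
  have hfin : c (4 * n) ≤ 1 / Real.pi ^ 2 - δ / Real.pi ^ 2 := by
    unfold c
    have h5 : ((4 * n : ℕ) : ℝ) = 4 * n := by push_cast; ring
    rw [h5, div_le_iff₀ (by positivity)]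
    refine hg.trans (le_of_eq ?_)
    ring
  linarith

theorem fin3 : BLQ.FIN2 → BLQ.FIN3 := by
  rintro ⟨n0, H⟩
  have hd : ∀ᶠ d : ℕ in atTop, c d ≤ 1 / Real.pi ^ 2 - 1 / 10 ^ 31 := by
    obtain ⟨e, he, h1⟩ := slow_decrease (1 / 10 ^ 31) (by norm_num)
    obtain ⟨m0, h3⟩ := exists_nat_gt (7 / e)
    filter_upwards [eventually_ge_atTop (4 * n0 + m0 + 1)] with d hd
    obtain ⟨k, m, hm, hk⟩ : ∃ k m : ℕ, m ≤ 7 ∧ d + m = 8 * k :=
      ⟨(d + 7) / 8, 8 * ((d + 7) / 8) - d, by omega, by omega⟩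
    have h4 := H (2 * k) (by omega) (even_two_mul k)
    have h5 := h1 d m (by omega) (by
      have h6 : (m : ℝ) ≤ 7 := by exact_mod_cast hm
      have h7 : (m0 : ℝ) ≤ d := by exact_mod_cast (by omega : m0 ≤ d)
      rw [div_lt_iff₀ he] at h3
      nlinarith)
    rw [hk] at h5
    rw [show 4 * (2 * k) = 8 * k by ring] at h4
    have h8 : (2 : ℝ) / 10 ^ 31 = 1 / 10 ^ 31 + 1 / 10 ^ 31 := by norm_num
    linarith
  refine ⟨limsup_le_of_le ?_ hd, hd⟩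
  exact isCoboundedUnder_le_of_le atTop (x := 0) fun n => c_nonneg n

end Pool.Agent.BLQ
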