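import Pool.Agent.Lib.BLQ.Defs
import Pool.Agent.Lib.BLP.GLUE

/-!
Project BLQ, row GLUE: identity theorem, the function `Psi` on the closed right half plane (helper29).
-/

set_option autoImplicit false

open Complex MeasureTheory Finset Set Filter Topology

namespace Pool.Agent.BLQ

open Pool.Agent.KL Pool.Agent.BLP Pool.Agent.Lib.MP_ef2672_gt_Tauber

namespace GlueQ

open Pool.Agent.BLP.Gluex (two_div_re two_div_re_pos psi1_diff psi1_cont tend_shift)

/-- the glued function -/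
noncomputable def Psg (n : ℕ) (ε : ℝ) (φ : ℂ → ℂ) (h : ℝ → ℝ) (s : ℂ) : ℂ :=
  if s = 0 then Psi2 n ε φ 0 else Psi1 n h s

section
variable {h : ℝ → ℝ} (hd : DifferentiableOn ℂ (Wf h) {z : ℂ | 0 < z.re})
  (hc : ContinuousOn (Wf h) {z : ℂ | 0 ≤ z.re})

include hd hc in
/-- the identity theorem -/
theorem near_eq {n : ℕ} {ε : ℝ} {p : ℂ → ℂ}
    (h2c : ContinuousOn (Psi2 n ε p) ({z : ℂ | 0 ≤ z.re} ∩ Metric.ball 0 1))
    (h2 : DifferentiableOn ℂ (Psi2 n ε p) ({z : ℂ | 0 < z.re} ∩ Metric.ball 0 1))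
    (heq : ∀ s : ℝ, 0 < s → s < 1 → Psi1 n h s = Psi2 n ε p s) {s : ℂ} (hs : 0 ≤ s.re)
    (hs1 : ‖s‖ < 1) (h0 : s ≠ 0) : Psi1 n h s = Psi2 n ε p s := by
  have hopen : IsOpen {z : ℂ | 0 < z.re} := isOpen_lt continuous_const Complex.continuous_re
  set U : Set ℂ := {z : ℂ | 0 < z.re} ∩ Metric.ball 0 1 with hU
  have hUo : IsOpen U := hopen.inter Metric.isOpen_ball
  have hUc : IsPreconnected U := by
    refine (Convex.inter ?_ (convex_ball 0 1)).isPreconnected
    exact convex_halfSpace_re_gt 0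
  have hA1 : AnalyticOnNhd ℂ (Psi1 n h) U :=
    ((psi1_diff hd n).mono inter_subset_left).analyticOnNhd hUo
  have hA2 : AnalyticOnNhd ℂ (Psi2 n ε p) U := h2.analyticOnNhd hUo
  have hz0 : ((1 / 2 : ℝ) : ℂ) ∈ U := by
    refine ⟨?_, ?_⟩
    · simp only [mem_ofPred_eq, Complex.ofReal_re]
      norm_num
    · rw [Metric.mem_ball, dist_zero_right, Complex.norm_real, Real.norm_eq_abs]
      norm_num
  have hfreq : ∃ᶠ z in 𝓝[≠] ((1 / 2 : ℝ) : ℂ), Psi1 n h z = Psi2 n ε p z := by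
    have ht : Tendsto (fun k : ℕ => ((1 / 2 + 1 / ((k : ℝ) + 3) : ℝ) : ℂ)) atTop
        (𝓝[≠] ((1 / 2 : ℝ) : ℂ)) := by
      refine tendsto_nhdsWithin_iff.2 ⟨?_, Eventually.of_forall fun k => ?_⟩
      · have e1 : Tendsto (fun k : ℕ => 1 / ((k : ℝ) + 3)) atTop (𝓝 0) := by
          have := (tendsto_natCast_atTop_atTop (R := ℝ)).atTop_add (tendsto_const_nhds (x := (3 : ℝ)))
          exact (tendsto_inv_atTop_zero.comp this).congr fun k => by simp [one_div]
        have e2 := e1.const_add (1 / 2 : ℝ)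
        rw [add_zero] at e2
        exact (Complex.continuous_ofReal.tendsto _).comp e2
      · simp only [mem_compl_iff, mem_singleton_iff, Complex.ofReal_inj]
        have : (0 : ℝ) < 1 / ((k : ℝ) + 3) := by positivity
        linarith
    refine ht.frequently (Frequently.of_forall fun k => ?_)
    have e3 : (0 : ℝ) < 1 / ((k : ℝ) + 3) := by positivity
    have e4 : 1 / ((k : ℝ) + 3) ≤ 1 / 3 := by
      apply one_div_le_one_div_of_le (by norm_num)
      have : (0 : ℝ) ≤ k := Nat.cast_nonneg k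
      linarith
    exact heq _ (by linarith) (by linarith)
  have hEq : EqOn (Psi1 n h) (Psi2 n ε p) U :=
    hA1.eqOn_of_preconnected_of_frequently_eq hA2 hUc hz0 hfreq
  rcases hs.lt_or_eq with hpos | hzero
  · exact hEq ⟨hpos, by rwa [Metric.mem_ball, dist_zero_right]⟩
  · -- boundary point
    have ht := tend_shift s
    have hre : ∀ k : ℕ, 0 < (s + ((1 / ((k : ℝ) + 1) : ℝ) : ℂ)).re := by
      intro k
      rw [Complex.add_re, Complex.ofReal_re, ← hzero]
      positivity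
    have h1c : Tendsto (fun k : ℕ => Psi1 n h (s + ((1 / ((k : ℝ) + 1) : ℝ) : ℂ))) atTop
        (𝓝 (Psi1 n h s)) :=
      (psi1_cont hc n hs h0).tendsto.comp (tendsto_nhdsWithin_iff.2
        ⟨ht, Eventually.of_forall fun k => (hre k).le⟩)
    have hball : s ∈ Metric.ball (0 : ℂ) 1 := by rwa [Metric.mem_ball, dist_zero_right]
    have h2t : Tendsto (fun k : ℕ => Psi2 n ε p (s + ((1 / ((k : ℝ) + 1) : ℝ) : ℂ))) atTop
        (𝓝 (Psi2 n ε p s)) := by
      refine (h2c s ⟨hs, hball⟩).tendsto.comp (tendsto_nhdsWithin_iff.2 ⟨ht, ?_⟩)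
      filter_upwards [ht.eventually (Metric.isOpen_ball.mem_nhds hball)] with k hk
      exact ⟨(hre k).le, hk⟩
    have hev : ∀ᶠ k : ℕ in atTop, Psi1 n h (s + ((1 / ((k : ℝ) + 1) : ℝ) : ℂ)) =
        Psi2 n ε p (s + ((1 / ((k : ℝ) + 1) : ℝ) : ℂ)) := by
      filter_upwards [ht.eventually (Metric.isOpen_ball.mem_nhds hball)] with k hk
      exact hEq ⟨hre k, hk⟩
    exact tendsto_nhds_unique (h1c.congr' hev) h2t

end

end GlueQ

open GlueQ in
open Pool.Agent.BLP.Gluex (two_div_re two_div_re_pos psi1_diff psi1_cont tend_shift) in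
theorem glue (hPW : Pool.Agent.BLP.PW2) (hK : KPW) (hW : W0B) (hL : Pool.Agent.BLP.LAPW)
    (hP : P2AN) (hE : EQS) : GLUE := by
  intro n hn he ε hε p p1 B A A2 hp hεp
  obtain ⟨C0, hK0⟩ := hK n (by omega) he ε hε p p1 B A A2 hp
  have hPC := hPW _ _ hK0
  set h : ℝ → ℝ := gPW (Kf n ε p) with hh
  have hcont : Continuous h := hPC.cont
  have hsqi : IntegrableOn (fun v => h v ^ 2) (Ioi 0) := hPC.sqi
  have hone : ∫ v in Ioi (0 : ℝ), h v ^ 2 ≤ 1 := by
    have e1 := hPC.sq 0 le_rfl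
    have e2 := hW n hn he ε hε p p1 B A A2 hp hεp
    simp only [mul_zero, zero_mul, neg_zero, Real.exp_zero, mul_one, Complex.ofReal_zero,
      zero_add] at e1
    rw [hh, e1]
    exact e2
  obtain ⟨hd, hc, hb, hcj⟩ := hL h hcont hsqi
  obtain ⟨h2c, h2⟩ := hP n (by omega) he ε hε p p1 B A A2 hp
  have heq := hE n (by omega) he ε hε p p1 B A A2 hp
  have hnear : ∀ s : ℂ, 0 ≤ s.re → ‖s‖ < 1 → Psg n ε p h s = Psi2 n ε p s := by
    intro s hs hs1
    unfold Psg
    split_ifs with h0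
    · rw [h0]
    · exact near_eq hd hc h2c h2 heq hs hs1 h0
  have hne : ∀ s : ℂ, s ≠ 0 → Psg n ε p h s = Psi1 n h s := fun s h0 => if_neg h0
  have hfar : ∀ s : ℂ, 0 ≤ s.re → s ≠ 0 → ‖Psg n ε p h s‖ ≤ (‖s‖ ^ (2 * n - 1))⁻¹ := by
    intro s hs h0
    rw [hne s h0, Psi1, norm_mul, norm_inv, norm_pow]
    calc (‖s‖ ^ (2 * n - 1))⁻¹ * ‖Wf h (2 / s)‖ ≤ (‖s‖ ^ (2 * n - 1))⁻¹ * 1 := by
          gcongr
          exact (hb _ (two_div_re s hs)).trans hone
      _ = _ := mul_one _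
  have hcontΨ : ContinuousOn (Psg n ε p h) {z : ℂ | 0 ≤ z.re} := by
    intro s hs
    by_cases h0 : s = 0
    · have hball : s ∈ Metric.ball (0 : ℂ) 1 := by rw [h0]; simp
      have e1 : ContinuousWithinAt (Psi2 n ε p) {z : ℂ | 0 ≤ z.re} s :=
        (h2c s ⟨hs, hball⟩).mono_of_mem_nhdsWithin
          (inter_mem self_mem_nhdsWithin
            (mem_nhdsWithin_of_mem_nhds (Metric.isOpen_ball.mem_nhds hball)))
      refine e1.congr_of_eventuallyEq ?_ (hnear s hs (by rw [h0]; simp))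
      filter_upwards [self_mem_nhdsWithin,
        mem_nhdsWithin_of_mem_nhds (Metric.isOpen_ball.mem_nhds hball)] with z hz hz1
      exact hnear z hz (by rwa [Metric.mem_ball, dist_zero_right] at hz1)
    · refine (psi1_cont hc n hs h0).congr_of_eventuallyEq ?_ (hne s h0)
      filter_upwards [mem_nhdsWithin_of_mem_nhds (isOpen_ne.mem_nhds h0)] with z hz
      exact hne z hz
  have hconj : ∀ s : ℂ, s ≠ 0 → Psg n ε p h ((starRingEnd ℂ) s) =
      (starRingEnd ℂ) (Psg n ε p h s) := by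
    intro s h0
    have h0' : (starRingEnd ℂ) s ≠ 0 := by
      rwa [Ne, map_eq_zero]
    rw [hne _ h0, hne _ h0', Psi1, Psi1, map_mul, map_inv₀, map_pow, ← hcj, map_div₀, map_ofNat]
  refine ⟨h, Psg n ε p h, ⟨?_, hcont, hsqi, hone, ?_, hfar, hnear⟩⟩
  · -- the class
    obtain ⟨M, hM⟩ : ∃ M : ℝ, ∀ s : ℂ, 0 ≤ s.re → ‖s‖ ≤ 1 → ‖Psg n ε p h s‖ ≤ M := by
      have hcomp : IsCompact ({z : ℂ | 0 ≤ z.re} ∩ Metric.closedBall 0 1) :=
        (isCompact_closedBall (0 : ℂ) 1).inter_left (isClosed_le continuous_const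
          Complex.continuous_re)
      obtain ⟨M, hM⟩ := hcomp.exists_bound_of_continuousOn (hcontΨ.mono inter_subset_left)
      exact ⟨M, fun s hs hs1 => hM s ⟨hs, by rwa [Metric.mem_closedBall, dist_zero_right]⟩⟩
    have hM0 : 0 ≤ M := (norm_nonneg _).trans (hM 0 (by simp) (by simp))
    refine ⟨2 * M + 2, hcontΨ, ?_, ?_, ?_⟩
    · have e1 := psi1_diff hd n
      refine e1.congr fun z hz => hne z ?_
      rintro rfl
      simp at hz
    · intro z hz
      rw [le_div_iff₀ (by positivity)]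
      rcases le_or_gt ‖z‖ 1 with h1 | h1
      · have e1 := hM z hz h1
        have e2 : ‖z‖ ^ 2 ≤ 1 := pow_le_one₀ (norm_nonneg _) h1
        nlinarith [norm_nonneg (Psg n ε p h z)]
      · have h0 : z ≠ 0 := by
          rintro rfl
          simp at h1
          linarith
        have e1 := hfar z hz h0
        have e2 : ‖z‖ ^ 2 ≤ ‖z‖ ^ (2 * n - 1) := pow_le_pow_right₀ h1.le (by omega)
        have e3 : (‖z‖ ^ (2 * n - 1))⁻¹ ≤ (‖z‖ ^ 2)⁻¹ := by
          gcongr
        have e4 : (1 : ℝ) ≤ ‖z‖ ^ 2 := one_le_pow₀ h1.le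
        calc ‖Psg n ε p h z‖ * (1 + ‖z‖ ^ 2) ≤ (‖z‖ ^ 2)⁻¹ * (1 + ‖z‖ ^ 2) := by
              gcongr
              exact e1.trans e3
          _ = (‖z‖ ^ 2)⁻¹ + 1 := by
              field_simp
          _ ≤ 1 + 1 := by
              gcongr
              exact inv_le_one_of_one_le₀ e4
          _ ≤ 2 * M + 2 := by linarith
    · intro z hz
      by_cases h0 : z = 0
      · -- limit along the positive reals
        subst h0
        rw [map_zero]
        have ht := tend_shift 0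
        have hpos : ∀ k : ℕ, (0 : ℝ) < 1 / ((k : ℝ) + 1) := fun k => by positivity
        have e1 : Tendsto (fun k : ℕ => Psg n ε p h (0 + ((1 / ((k : ℝ) + 1) : ℝ) : ℂ))) atTop
            (𝓝 (Psg n ε p h 0)) :=
          (hcontΨ 0 (by simp)).tendsto.comp (tendsto_nhdsWithin_iff.2 ⟨ht,
            Eventually.of_forall fun k => by
              simp only [mem_ofPred_eq, zero_add, Complex.ofReal_re]
              exact (hpos k).le⟩)
        have e2 : Tendsto (fun k : ℕ => (starRingEnd ℂ)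
            (Psg n ε p h (0 + ((1 / ((k : ℝ) + 1) : ℝ) : ℂ)))) atTop
            (𝓝 ((starRingEnd ℂ) (Psg n ε p h 0))) :=
          (Complex.continuous_conj.tendsto _).comp e1
        refine tendsto_nhds_unique (e1.congr fun k => ?_) e2
        rw [zero_add, ← hconj _ (by
          rw [Ne, Complex.ofReal_eq_zero]
          exact (hpos k).ne'), Complex.conj_ofReal]
      · exact hconj z h0
  · -- real values
    intro s hs
    have h0 : (s : ℂ) ≠ 0 := by
      rw [Ne, Complex.ofReal_eq_zero]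
      exact hs.ne'
    rw [hne _ h0, Psi1, Wf]
    push_cast
    congr 1
    rw [← integral_complex_ofReal]
    refine integral_congr_ae (Eventually.of_forall fun v => ?_)
    push_cast
    rfl

end Pool.Agent.BLQ
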