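import Pool.Agent.Lib.BLQ.Defs
import Pool.Agent.Lib.BLP.Inc

/-!
# Project BLQ (MP_ef2672), row INC (helper60): the incoherence lemma with an explicit rate
-/

set_option autoImplicit false

open MeasureTheory Set Filter Topology

namespace Pool.Agent.BLQ

open Pool.Agent.BLP Pool.Agent.BLP.Incx

/-- **The incoherence lemma**, explicit rate. -/
theorem inc : INC := by
  intro N A hN hP hmin τ v hτ hττ0 hv hvv0
  have hpi := Real.pi_pos
  have hpi3 := Real.pi_gt_three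
  have hτ1 : τ ≤ 1 / 2 := by linarith
  have hvp : 0 < v := by linarith
  have hNp : (0 : ℝ) ≤ N := Nat.cast_nonneg N
  have h1 := sq_le hP (v := v) hτ hτ1
  have h2 := sum_le hP (v := v) (d := 1 / 3998) (m := 9 / 100 * N) hτ hτ1 hv (by norm_num)
    (by norm_num) (by positivity) hmin
  have hfar : Real.exp (-(Real.pi * (1 / (2 * τ) - 1) * ((1 / 3998) ^ 2 * v ^ 2 * (9 / 100 * N)))) ≤
      Real.exp (-(2 / 10 ^ 11 * N)) := by
    refine Real.exp_le_exp.2 (neg_le_neg ?_)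
    have e1 : (5 / 995 : ℝ) ≤ 1 / (2 * τ) - 1 := by
      have h3 : (1 : ℝ) / (2 * (4975 / 10000)) ≤ 1 / (2 * τ) :=
        one_div_le_one_div_of_le (by linarith) (by linarith)
      have h4 : (1 : ℝ) / (2 * (4975 / 10000)) = 1 + 5 / 995 := by norm_num
      linarith
    have e2 : (1 / 4 : ℝ) ≤ v ^ 2 := by nlinarith
    have e0 : (2 / 10 ^ 11 : ℝ) ≤ 3 * (5 / 995) * ((1 / 3998) ^ 2 * (1 / 4) * (9 / 100)) := by norm_num
    calc 2 / 10 ^ 11 * (N : ℝ) ≤ 3 * (5 / 995) * ((1 / 3998) ^ 2 * (1 / 4) * (9 / 100)) * N :=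
          mul_le_mul_of_nonneg_right e0 hNp
      _ = 3 * (5 / 995) * ((1 / 3998) ^ 2 * (1 / 4) * (9 / 100 * N)) := by ring
      _ ≤ Real.pi * (1 / (2 * τ) - 1) * ((1 / 3998) ^ 2 * v ^ 2 * (9 / 100 * N)) := by
          refine mul_le_mul (mul_le_mul hpi3.le e1 (by norm_num) hpi.le) ?_ (by positivity)
            (mul_nonneg hpi.le (by linarith))
          exact mul_le_mul_of_nonneg_right (mul_le_mul_of_nonneg_left e2 (by positivity))
            (by positivity)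
  have hnear : (v * (1 + 1 / 3998)) ^ N ≤ Real.exp (-(2 / 10 ^ 11 * N)) := by
    have e1 : v * (1 + 1 / 3998) ≤ Real.exp (-(2 / 10 ^ 11)) := by
      have h3 := Real.one_sub_le_exp_neg (2 / 10 ^ 11)
      calc v * (1 + 1 / 3998) ≤ 9995 / 10000 * (1 + 1 / 3998) :=
            mul_le_mul_of_nonneg_right hvv0 (by norm_num)
        _ ≤ 1 - 2 / 10 ^ 11 := by norm_num
        _ ≤ _ := h3
    calc (v * (1 + 1 / 3998)) ^ N ≤ Real.exp (-(2 / 10 ^ 11)) ^ N :=
          pow_le_pow_left₀ (by positivity) e1 N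
      _ = Real.exp (-(2 / 10 ^ 11 * N)) := by
          rw [← Real.exp_nat_mul]
          congr 1
          ring
  have h3 : ‖th A ((τ : ℂ) + (v : ℂ) * Complex.I)‖ ^ 2 ≤ (2 * τ) ^ (-((N : ℝ) / 2)) *
      ((τ / 2) ^ (-((N : ℝ) / 2)) * TT A ^ 2 *
        (Real.exp (-(2 / 10 ^ 11 * N)) + Real.exp (-(2 / 10 ^ 11 * N)))) := by
    refine h1.trans (mul_le_mul_of_nonneg_left (h2.trans ?_) (by positivity))
    exact mul_le_mul_of_nonneg_left (add_le_add hfar hnear) (by positivity)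
  refine h3.trans (le_of_eq ?_)
  have h4 : (2 * τ) ^ (-((N : ℝ) / 2)) * (τ / 2) ^ (-((N : ℝ) / 2)) = (τ ^ N)⁻¹ := by
    rw [← Real.mul_rpow (by positivity) (by positivity), show 2 * τ * (τ / 2) = τ ^ 2 by ring,
      rpow_sq_neg hτ]
  calc _ = ((2 * τ) ^ (-((N : ℝ) / 2)) * (τ / 2) ^ (-((N : ℝ) / 2))) * TT A ^ 2 *
        (2 * Real.exp (-(2 / 10 ^ 11 * N))) := by ring
    _ = _ := by
        rw [h4]
        ring

end Pool.Agent.BLQ
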