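import Pool.Agent.Lib.BLQ.Defs
import Pool.Agent.Lib.BLP.P2AN

/-! Row P2AN (MP_ef2672): `Psi2` on the half disc.  helper93 -/

set_option autoImplicit false

open Complex MeasureTheory Finset Set Filter Topology

namespace Pool.Agent.BLQ

open Pool.Agent.KL

namespace P2ANx

/-- the closed right half disc -/
def HD : Set ℂ := {z : ℂ | 0 ≤ z.re} ∩ Metric.ball 0 1

lemma mem_HD {s : ℂ} : s ∈ HD ↔ 0 ≤ s.re ∧ ‖s‖ < 1 := by
  unfold HD
  rw [Set.mem_inter_iff, Metric.mem_ball, dist_zero_right]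
  rfl

lemma mem_Om {s : ℂ} (h0 : 0 ≤ s.re) (h1 : ‖s‖ < 1) (hs : s ≠ 0) (t : ℝ) :
    (1 + (t : ℂ) * I) / s ∈ Om := by
  set z : ℂ := (1 + (t : ℂ) * I) / s with hz
  have hzs : z * s = 1 + (t : ℂ) * I := by
    rw [hz]
    field_simp
  have hre : z.re * s.re - z.im * s.im = 1 := by
    have := congrArg Complex.re hzs
    rw [Complex.mul_re] at this
    simpa using this
  show 0 ≤ z.re ∨ 1 ≤ |z.im|
  by_contra hcon
  push Not at hcon
  obtain ⟨h2, h3⟩ := hcon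
  have h4 : |s.im| < 1 := (Complex.abs_im_le_norm s).trans_lt h1
  have h5 : z.re * s.re ≤ 0 := mul_nonpos_of_nonpos_of_nonneg h2.le h0
  have h6 : |z.im * s.im| < 1 := by
    rw [abs_mul]
    calc |z.im| * |s.im| ≤ |z.im| * 1 := mul_le_mul_of_nonneg_left h4.le (abs_nonneg _)
      _ < 1 := by linarith
  have h7 := (abs_lt.1 h6).1
  linarith

lemma mem_Om' {s : ℂ} (h0 : 0 ≤ s.re) (h1 : ‖s‖ < 1) (hs : s ≠ 0) (t : ℝ) :
    (1 - (t : ℂ) * I) / s ∈ Om := by
  have := mem_Om h0 h1 hs (-t)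
  have e : (1 + ((-t : ℝ) : ℂ) * I) = 1 - (t : ℂ) * I := by
    push_cast
    ring
  rwa [e] at this

variable {φ : ℂ → ℂ} {p1 B A A2 : ℝ}

lemma eF_zero (φ : ℂ → ℂ) (t : ℝ) : eF φ 0 t = 0 := by simp [eF]

lemma eF_ne (φ : ℂ → ℂ) {s : ℂ} (hs : s ≠ 0) (t : ℝ) :
    eF φ s t = φ ((1 + (t : ℂ) * I) / s) + φ ((1 - (t : ℂ) * I) / s) := by
  simp [eF, hs]

lemma eF_bd (H : HQ φ p1 B A A2) {s : ℂ} (h0 : 0 ≤ s.re) (h1 : ‖s‖ < 1) (t : ℝ) :
    ‖eF φ s t‖ ≤ 2 * A := by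
  by_cases hs : s = 0
  · rw [hs, eF_zero, norm_zero]
    have := H.hA
    positivity
  · rw [eF_ne φ hs]
    refine (norm_add_le _ _).trans ?_
    have := H.bd _ (mem_Om h0 h1 hs t)
    have := H.bd _ (mem_Om' h0 h1 hs t)
    linarith

lemma one_le_num (t : ℝ) : 1 ≤ ‖1 + (t : ℂ) * I‖ := by
  have := Complex.re_le_norm (1 + (t : ℂ) * I)
  simpa using this

/-- one term near `s = 0` -/
lemma phi_small (H : HQ φ p1 B A A2) {s : ℂ} (h0 : 0 ≤ s.re) (h1 : ‖s‖ < 1) (hs : s ≠ 0) (t : ℝ) :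
    ‖φ ((1 + (t : ℂ) * I) / s)‖ ≤ (p1 + A) * ‖s‖ := by
  set z : ℂ := (1 + (t : ℂ) * I) / s with hz
  have hsp : 0 < ‖s‖ := norm_pos_iff.2 hs
  have hzn : 1 / ‖s‖ ≤ ‖z‖ := by
    rw [hz, norm_div]
    exact div_le_div_of_nonneg_right (one_le_num t) hsp.le
  have hz1 : 1 ≤ ‖z‖ := by
    refine le_trans ?_ hzn
    rw [le_div_iff₀ hsp]
    linarith
  have hzp : 0 < ‖z‖ := by linarith
  have h2 := H.inf z (mem_Om h0 h1 hs t) hz1
  have h3 : 1 / ‖z‖ ≤ ‖s‖ := by
    rw [div_le_iff₀ hzp]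
    rw [div_le_iff₀ hsp] at hzn
    linarith
  have h4 : ‖(p1 : ℂ) / z‖ ≤ p1 * ‖s‖ := by
    rw [norm_div, Complex.norm_real, Real.norm_of_nonneg H.pos.le, div_eq_mul_one_div]
    exact mul_le_mul_of_nonneg_left h3 H.pos.le
  have h5 : A / ‖z‖ ^ 2 ≤ A * ‖s‖ := by
    have h6 : A / ‖z‖ ^ 2 = A * (1 / ‖z‖ * (1 / ‖z‖)) := by
      field_simp
    rw [h6]
    refine mul_le_mul_of_nonneg_left ?_ H.hA
    calc 1 / ‖z‖ * (1 / ‖z‖) ≤ ‖s‖ * 1 := by
          refine mul_le_mul h3 ?_ (by positivity) hsp.le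
          rw [div_le_one hzp]
          exact hz1
      _ = ‖s‖ := mul_one _
  have h7 : φ z = (φ z - (p1 : ℂ) / z) + (p1 : ℂ) / z := by ring
  rw [h7]
  refine (norm_add_le _ _).trans ?_
  linarith

lemma eF_small (H : HQ φ p1 B A A2) {s : ℂ} (h0 : 0 ≤ s.re) (h1 : ‖s‖ < 1) (t : ℝ) :
    ‖eF φ s t‖ ≤ 2 * (p1 + A) * ‖s‖ := by
  by_cases hs : s = 0
  · rw [hs, eF_zero]
    simp
  · rw [eF_ne φ hs]
    refine (norm_add_le _ _).trans ?_
    have h2 := phi_small H h0 h1 hs t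
    have h3 := phi_small H h0 h1 hs (-t)
    have e : (1 + ((-t : ℝ) : ℂ) * I) = 1 - (t : ℂ) * I := by
      push_cast
      ring
    rw [e] at h3
    linarith

/-- continuity in `t` -/
lemma eF_cont_t (H : HQ φ p1 B A A2) {s : ℂ} (h0 : 0 ≤ s.re) (h1 : ‖s‖ < 1) :
    Continuous fun t : ℝ => eF φ s t := by
  by_cases hs : s = 0
  · subst hs
    simp only [eF_zero]
    exact continuous_const
  · simp only [eF_ne φ hs]
    rw [continuous_iff_continuousAt]
    intro t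
    have c1 : ContinuousAt (fun t : ℝ => (1 + (t : ℂ) * I) / s) t := by fun_prop
    have c2 : ContinuousAt (fun t : ℝ => (1 - (t : ℂ) * I) / s) t := by fun_prop
    exact (ContinuousAt.comp (f := fun t : ℝ => (1 + (t : ℂ) * I) / s)
      (H.diff _ (mem_Om h0 h1 hs t)).continuousAt c1).add
      (ContinuousAt.comp (f := fun t : ℝ => (1 - (t : ℂ) * I) / s)
      (H.diff _ (mem_Om' h0 h1 hs t)).continuousAt c2)

/-- differentiability in `s` away from `0` -/
lemma eF_diff_s (H : HQ φ p1 B A A2) (t : ℝ) {s : ℂ} (h0 : 0 ≤ s.re) (h1 : ‖s‖ < 1)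
    (hs : s ≠ 0) : DifferentiableAt ℂ (fun s => eF φ s t) s := by
  have he : (fun s => eF φ s t) =ᶠ[𝓝 s]
      fun s => φ ((1 + (t : ℂ) * I) / s) + φ ((1 - (t : ℂ) * I) / s) := by
    filter_upwards [isOpen_ne.mem_nhds hs] with z hz
    exact eF_ne φ hz t
  refine DifferentiableAt.congr_of_eventuallyEq ?_ he
  have d1 : DifferentiableAt ℂ (fun s : ℂ => (1 + (t : ℂ) * I) / s) s :=
    DifferentiableAt.div (by fun_prop) (by fun_prop) hs
  have d2 : DifferentiableAt ℂ (fun s : ℂ => (1 - (t : ℂ) * I) / s) s :=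
    DifferentiableAt.div (by fun_prop) (by fun_prop) hs
  exact (DifferentiableAt.comp (f := fun s : ℂ => (1 + (t : ℂ) * I) / s) s
    (H.diff _ (mem_Om h0 h1 hs t)) d1).add
    (DifferentiableAt.comp (f := fun s : ℂ => (1 - (t : ℂ) * I) / s) s
    (H.diff _ (mem_Om' h0 h1 hs t)) d2)

/-- continuity in `s` on the half disc -/
lemma eF_cont_s (H : HQ φ p1 B A A2) (t : ℝ) {s : ℂ} (hs : s ∈ HD) :
    ContinuousWithinAt (fun s => eF φ s t) HD s := by
  obtain ⟨h0, h1⟩ := mem_HD.1 hs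
  by_cases hs0 : s = 0
  · subst hs0
    show Tendsto (fun s => eF φ s t) (𝓝[HD] 0) (𝓝 (eF φ 0 t))
    rw [eF_zero]
    refine squeeze_zero_norm' (a := fun s => 2 * (p1 + A) * ‖s‖) ?_ ?_
    · filter_upwards [self_mem_nhdsWithin] with z hz
      exact eF_small H (mem_HD.1 hz).1 (mem_HD.1 hz).2 t
    · have : Tendsto (fun s : ℂ => 2 * (p1 + A) * ‖s‖) (𝓝 0) (𝓝 (2 * (p1 + A) * ‖(0 : ℂ)‖)) :=
        (continuous_const.mul continuous_norm).tendsto 0
      rw [norm_zero, mul_zero] at this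
      exact this.mono_left nhdsWithin_le_nhds
  · exact (eF_diff_s H t h0 h1 hs0).continuousAt.continuousWithinAt

lemma Ef_cont_t (n : ℕ) (ε : ℝ) (H : HQ φ p1 B A A2) {s : ℂ} (h0 : 0 ≤ s.re) (h1 : ‖s‖ < 1) :
    Continuous fun t : ℝ => Ef n ε φ s t := by
  unfold Ef
  refine Continuous.div ?_ (by fun_prop) fun t => BLP.P2ANx.prod_ne h1 t
  exact Complex.continuous_exp.comp (continuous_const.mul (eF_cont_t H h0 h1))

lemma Ef_diff_s (n : ℕ) (ε : ℝ) (H : HQ φ p1 B A A2) (t : ℝ) {s : ℂ} (h0 : 0 ≤ s.re)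
    (h1 : ‖s‖ < 1) (hs : s ≠ 0) : DifferentiableAt ℂ (fun s => Ef n ε φ s t) s := by
  unfold Ef
  refine DifferentiableAt.div ?_ (by fun_prop) (BLP.P2ANx.prod_ne h1 t)
  exact DifferentiableAt.cexp (DifferentiableAt.const_mul (eF_diff_s H t h0 h1 hs) _)

lemma Ef_cont_s (n : ℕ) (ε : ℝ) (H : HQ φ p1 B A A2) (t : ℝ) {s : ℂ} (hs : s ∈ HD) :
    ContinuousWithinAt (fun s => Ef n ε φ s t) HD s := by
  unfold Ef
  have h1 := (mem_HD.1 hs).2
  refine ContinuousWithinAt.div ?_ ?_ (BLP.P2ANx.prod_ne h1 t)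
  · exact (ContinuousWithinAt.mul continuousWithinAt_const (eF_cont_s H t hs)).cexp
  · have : Continuous fun s : ℂ => ∏ j ∈ range n, ((1 - zt n j * s) ^ 2 + (t : ℂ) ^ 2) := by
      fun_prop
    exact this.continuousWithinAt

lemma Ef_bd (n : ℕ) (hn : 1 ≤ n) (ε : ℝ) (H : HQ φ p1 B A A2) {r : ℝ} (hr0 : 0 ≤ r)
    (hr : r < 1) : ∃ C : ℝ, ∀ (s : ℂ) (t : ℝ), 0 ≤ s.re → ‖s‖ ≤ r →
      ‖Ef n ε φ s t‖ ≤ C * (1 + t ^ 2)⁻¹ := by
  have h1r : 0 < 1 - r := by linarith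
  set c : ℝ := (1 - r) ^ 2 / 17 with hc
  have hc0 : 0 < c := by positivity
  refine ⟨Real.exp (n * |ε| * (2 * A)) * (c ^ n)⁻¹, fun s t h0 hs => ?_⟩
  have h1 : ‖Complex.exp ((n : ℂ) * (ε : ℂ) * eF φ s t)‖ ≤ Real.exp (n * |ε| * (2 * A)) := by
    refine (Complex.norm_exp_le_exp_norm _).trans (Real.exp_le_exp.2 ?_)
    rw [norm_mul, norm_mul, Complex.norm_natCast, Complex.norm_real, Real.norm_eq_abs]
    have := eF_bd H h0 (hs.trans_lt hr) t
    gcongr
  have h2 : c ^ n * (1 + t ^ 2) ≤ ‖∏ j ∈ range n, ((1 - zt n j * s) ^ 2 + (t : ℂ) ^ 2)‖ := by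
    rw [norm_prod]
    calc c ^ n * (1 + t ^ 2) ≤ c ^ n * (1 + t ^ 2) ^ n := by
          refine mul_le_mul_of_nonneg_left ?_ (by positivity)
          calc (1 + t ^ 2) = (1 + t ^ 2) ^ 1 := (pow_one _).symm
            _ ≤ (1 + t ^ 2) ^ n := pow_le_pow_right₀ (by nlinarith [sq_nonneg t]) hn
      _ = ∏ _j ∈ range n, (c * (1 + t ^ 2)) := by rw [prod_const, card_range, mul_pow]
      _ ≤ _ := Finset.prod_le_prod (fun j _ => by positivity) fun j _ =>
          BLP.P2ANx.fac_low' hr0 hr hs t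
  have h3 : 0 < c ^ n * (1 + t ^ 2) := by positivity
  unfold Ef
  rw [norm_div]
  calc _ ≤ Real.exp (n * |ε| * (2 * A)) / (c ^ n * (1 + t ^ 2)) :=
        div_le_div₀ (Real.exp_pos _).le h1 h3 h2
    _ = _ := by rw [div_eq_mul_inv, mul_inv]; ring

end P2ANx

open P2ANx in
theorem p2an : P2AN := by
  intro n hn _ ε _ φ p1 B A A2 H
  refine ⟨fun s hs => ?_, fun s hs => ?_⟩
  · obtain ⟨h0, h1⟩ := mem_HD.1 hs
    set R : ℝ := (1 - ‖s‖) / 2 with hR
    have hR0 : 0 < R := by linarith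
    have hlt : ‖s‖ + R < 1 := by rw [hR]; linarith
    obtain ⟨C, hC⟩ := Ef_bd n (by omega) ε H (r := ‖s‖ + R) (by positivity) hlt
    have key : ContinuousWithinAt (fun z => ∫ t, Ef n ε φ z t) HD s := by
      refine continuousWithinAt_of_dominated (bound := fun t => C * (1 + t ^ 2)⁻¹) ?_ ?_
        (integrable_inv_one_add_sq.const_mul C) ?_
      · filter_upwards [self_mem_nhdsWithin] with z hz
        exact (Ef_cont_t n ε H (mem_HD.1 hz).1 (mem_HD.1 hz).2).aestronglyMeasurable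
      · have hball : Metric.ball s R ∈ 𝓝[HD] s :=
          nhdsWithin_le_nhds (Metric.ball_mem_nhds s hR0)
        filter_upwards [self_mem_nhdsWithin, hball] with z hz hz2
        refine Eventually.of_forall fun t => hC z t (mem_HD.1 hz).1 ?_
        rw [Metric.mem_ball, dist_eq_norm] at hz2
        have : z = s + (z - s) := by ring
        rw [this]
        exact (norm_add_le _ _).trans (by linarith)
      · exact Eventually.of_forall fun t => Ef_cont_s n ε H t hs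
    exact ContinuousWithinAt.mul continuousWithinAt_const key
  · have h0 : 0 < s.re := hs.1
    have h1 : ‖s‖ < 1 := by
      have := hs.2
      rwa [Metric.mem_ball, dist_zero_right] at this
    set R : ℝ := min ((1 - ‖s‖) / 2) (s.re / 2) with hR
    have hR0 : 0 < R := lt_min (by linarith) (by linarith)
    have hR1 : R ≤ (1 - ‖s‖) / 2 := min_le_left _ _
    have hR2 : R ≤ s.re / 2 := min_le_right _ _
    have hin : ∀ z ∈ Metric.ball s R, ‖z‖ ≤ ‖s‖ + R := by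
      intro z hz
      rw [Metric.mem_ball, dist_eq_norm] at hz
      have : z = s + (z - s) := by ring
      rw [this]
      exact (norm_add_le _ _).trans (by linarith)
    have hre : ∀ z ∈ Metric.ball s R, 0 < z.re := by
      intro z hz
      rw [Metric.mem_ball, dist_eq_norm] at hz
      have h2 := (abs_le.1 ((Complex.abs_re_le_norm (z - s)).trans hz.le)).1
      rw [Complex.sub_re] at h2
      linarith
    have hlt : ‖s‖ + R < 1 := by linarith
    have hne : ∀ z ∈ Metric.ball s R, z ≠ 0 := by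
      rintro z hz rfl
      have := hre 0 hz
      simp at this
    obtain ⟨C, hC⟩ := Ef_bd n (by omega) ε H (r := ‖s‖ + R) (by positivity) hlt
    have key : DifferentiableAt ℂ (fun z => ∫ t, Ef n ε φ z t) s := by
      refine BLP.P2ANx.holo_int hR0 (b := fun t => C * (1 + t ^ 2)⁻¹)
        (integrable_inv_one_add_sq.const_mul C)
        (fun z hz => (Ef_cont_t n ε H (hre z hz).le ((hin z hz).trans_lt hlt)).aestronglyMeasurable)
        (fun t z hz => (Ef_diff_s n ε H t (hre z hz).le ((hin z hz).trans_lt hlt)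
          (hne z hz)).differentiableWithinAt)
        (fun t z hz => hC z t (hre z hz).le (hin z hz))
    exact (key.const_mul _).differentiableWithinAt

end Pool.Agent.BLQ
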