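import Pool.Agent.Lib.BLQ.PhiDefs

/-!
Project BLQ (MP_ef2672), row Q04: the perturbation (helper25).
-/

set_option autoImplicit false

open Complex

namespace Pool.Agent.BLQ

noncomputable section

lemma Om_conj {z : ℂ} (hz : z ∈ Om) : (starRingEnd ℂ) z ∈ Om := by
  rcases hz with hz | hz
  · left
    rw [Complex.conj_re]
    exact hz
  · right
    rw [Complex.conj_im, abs_neg]
    exact hz

lemma conj_mul_I (Y : ℝ) : (starRingEnd ℂ) ((Y : ℂ) * I) = ((-Y : ℝ) : ℂ) * I := by
  rw [map_mul, Complex.conj_ofReal, Complex.conj_I]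
  push_cast
  ring

theorem phi (ha : PHIA) (hb : PHIB) (hc : PHIC) : PHI := by
  obtain ⟨A, hA, hB⟩ := hb
  refine ⟨phq, 2 * A, ?_⟩
  refine
    { pos := by norm_num
      hB := by norm_num
      hA := by positivity
      hA2 := by positivity
      diff := ?_
      conj := ?_
      bd := ?_
      inf := ?_
      top := ?_
      sign := ?_
      sec := ?_ }
  · intro z hz
    have h1 := (hB z hz).1
    have h2 := (hB _ (Om_conj hz)).1
    have h3 : DifferentiableAt ℂ (fun z => (starRingEnd ℂ) (Fq ((starRingEnd ℂ) z))) z := by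
      have := h2.conj_conj
      rw [Complex.conj_conj] at this
      exact this
    exact h1.add h3
  · intro z hz
    unfold phq
    rw [Complex.conj_conj, map_add, Complex.conj_conj, add_comm]
  · intro z hz
    have h1 := (hB z hz).2.1
    have h2 := (hB _ (Om_conj hz)).2.1
    unfold phq
    refine (norm_add_le _ _).trans ?_
    rw [Complex.norm_conj]
    linarith
  · intro z hz h1z
    have h1 := (hB z hz).2.2 h1z
    have h2 := (hB _ (Om_conj hz)).2.2 (by rwa [Complex.norm_conj])
    rw [Complex.norm_conj] at h2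
    have h3 : phq z - ((754551 / 125000 : ℝ) : ℂ) / z = (Fq z - (754551 / 250000) / z) +
        (starRingEnd ℂ) (Fq ((starRingEnd ℂ) z) - (754551 / 250000) / (starRingEnd ℂ) z) := by
      have h4 : (starRingEnd ℂ) ((754551 / 250000 : ℂ) / (starRingEnd ℂ) z) = 754551 / 250000 / z := by
        rw [map_div₀, Complex.conj_conj, map_div₀, map_ofNat, map_ofNat]
      rw [map_sub, h4]
      unfold phq
      push_cast
      ring
    rw [h3]
    refine (norm_add_le _ _).trans ?_
    rw [Complex.norm_conj]
    have h5 : 2 * A / ‖z‖ ^ 2 = A / ‖z‖ ^ 2 + A / ‖z‖ ^ 2 := by ring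
    rw [h5]
    exact add_le_add h1 h2
  · intro Y
    unfold phq
    rw [conj_mul_I, Complex.add_re, Complex.conj_re]
    rcases le_total 0 Y with h | h
    · have h1 := (ha Y).1
      have h2 := (ha (-Y)).2 (Or.inl (by linarith))
      linarith
    · have h1 := (ha (-Y)).1
      have h2 := (ha Y).2 (Or.inl (by linarith))
      linarith
  · intro Y hY
    unfold phq
    rw [conj_mul_I, Complex.add_re, Complex.conj_re]
    have h1 : (Fq ((Y : ℂ) * I)).re ≤ 0 := by
      refine (ha Y).2 ?_
      rcases hY with h | h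
      · exact Or.inl (abs_le.1 h).2
      · rcases le_total 0 Y with h0 | h0
        · rw [abs_of_nonneg h0] at h
          exact Or.inr h
        · exact Or.inl (by linarith)
    have h2 : (Fq (((-Y : ℝ) : ℂ) * I)).re ≤ 0 := by
      refine (ha (-Y)).2 ?_
      rcases hY with h | h
      · exact Or.inl (by linarith [(abs_le.1 h).1])
      · rcases le_total 0 Y with h0 | h0
        · exact Or.inl (by linarith)
        · rw [abs_of_nonpos h0] at h
          exact Or.inr h
    linarith
  · intro Y t hY
    have h1 := hc Y t hY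
    have h2 := hc (-Y) t (by rwa [abs_neg])
    have e1 : (starRingEnd ℂ) ((Y : ℂ) * I + ((Y * t : ℝ) : ℂ)) =
        ((-Y : ℝ) : ℂ) * I - ((-Y * t : ℝ) : ℂ) := by
      rw [map_add, conj_mul_I, Complex.conj_ofReal]
      push_cast
      ring
    have e2 : (starRingEnd ℂ) ((Y : ℂ) * I - ((Y * t : ℝ) : ℂ)) =
        ((-Y : ℝ) : ℂ) * I + ((-Y * t : ℝ) : ℂ) := by
      rw [map_sub, conj_mul_I, Complex.conj_ofReal]
      push_cast
      ring
    unfold phq
    rw [e1, e2, conj_mul_I]
    rw [Complex.add_re] at h1 h2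
    simp only [Complex.add_re, Complex.conj_re]
    linarith

end

end Pool.Agent.BLQ
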