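import Pool.Agent.Lib.BLQ.PhiDefs

/-!
Project BLQ (MP_ef2672), row PHIA: the perturbation on the imaginary axis (helper48).
-/

open Complex MeasureTheory Finset Set

namespace Pool.Agent.BLQ

namespace PHIAx

noncomputable section

lemma pw (v : ℂ) (hv : v * (starRingEnd ℂ) v = 1) (a b : ℕ) :
    (v ^ a * ((starRingEnd ℂ) v) ^ b).re = (v ^ ((a : ℤ) - (b : ℤ)).natAbs).re := by
  rcases le_total b a with h | h
  · obtain ⟨k, rfl⟩ := Nat.exists_eq_add_of_le h
    have h1 : (((b + k : ℕ) : ℤ) - (b : ℤ)).natAbs = k := by omega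
    have h2 : v ^ (b + k) * ((starRingEnd ℂ) v) ^ b = (v * (starRingEnd ℂ) v) ^ b * v ^ k := by
      rw [pow_add, mul_pow]; ring
    rw [h1, h2, hv, one_pow, one_mul]
  · obtain ⟨k, rfl⟩ := Nat.exists_eq_add_of_le h
    have h1 : ((a : ℤ) - ((a + k : ℕ) : ℤ)).natAbs = k := by omega
    have h2 : v ^ a * ((starRingEnd ℂ) v) ^ (a + k) =
        (v * (starRingEnd ℂ) v) ^ a * ((starRingEnd ℂ) v) ^ k := by
      rw [pow_add, mul_pow]; ring
    rw [h1, h2, hv, one_pow, one_mul, ← map_pow, Complex.conj_re]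

lemma wqq (k : ℕ) (w : ℂ) : w * qq k w = (e0 * w) ^ k - (if k = 0 then 1 else 0) := by
  rcases Nat.eq_zero_or_pos k with h | h
  · subst h; simp [qq]
  · obtain ⟨m, rfl⟩ := Nat.exists_eq_add_of_le h
    have h0 : 1 + m ≠ 0 := by omega
    have h1 : 1 + m - 1 = m := by omega
    simp only [qq, if_neg h0, h1]
    rw [mul_pow, pow_add w 1 m]
    ring

lemma const : ∑ j ∈ range 27, ∑ l ∈ range 27, (hh j * hh l) *
    ((if ((j : ℤ) - (l : ℤ) + 1).natAbs = 0 then (1 : ℝ) else 0) -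
      991 / 1000 * (if ((j : ℤ) - (l : ℤ)).natAbs = 0 then (1 : ℝ) else 0)) = g0 := by
  have key : ∀ j ∈ range 27, ∑ l ∈ range 27, (hh j * hh l) *
      ((if ((j : ℤ) - (l : ℤ) + 1).natAbs = 0 then (1 : ℝ) else 0) -
        991 / 1000 * (if ((j : ℤ) - (l : ℤ)).natAbs = 0 then (1 : ℝ) else 0)) =
      (if j + 1 < 27 then hh j * hh (j + 1) else 0) - 991 / 1000 * (hh j * hh j) := by
    intro j hj
    have h1 : ∀ l ∈ range 27, (hh j * hh l) *
      ((if ((j : ℤ) - (l : ℤ) + 1).natAbs = 0 then (1 : ℝ) else 0) -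
        991 / 1000 * (if ((j : ℤ) - (l : ℤ)).natAbs = 0 then (1 : ℝ) else 0)) =
      (if l = j + 1 then hh j * hh l else 0) - 991 / 1000 * (if l = j then hh j * hh l else 0) := by
      intro l _
      have e1 : ((j : ℤ) - (l : ℤ) + 1).natAbs = 0 ↔ l = j + 1 := by omega
      have e2 : ((j : ℤ) - (l : ℤ)).natAbs = 0 ↔ l = j := by omega
      simp only [e1, e2]
      split_ifs <;> ring
    rw [Finset.sum_congr rfl h1, Finset.sum_sub_distrib, ← Finset.mul_sum,
      Finset.sum_ite_eq', Finset.sum_ite_eq', if_pos hj]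
    simp only [Finset.mem_range]
  rw [Finset.sum_congr rfl key]
  norm_num [Finset.sum_range_succ, hh, g0]

/-- `Γ(v)` -/
def Ga (v : ℂ) : ℂ := ∑ j ∈ range 27, ∑ l ∈ range 27, ((hh j * hh l : ℝ) : ℂ) *
  (v ^ ((j : ℤ) - (l : ℤ) + 1).natAbs - 991 / 1000 * v ^ ((j : ℤ) - (l : ℤ)).natAbs)

lemma two_w (w : ℂ) : 2 * w * P1 w = Ga (e0 * w) - (g0 : ℂ) := by
  have h0 : (g0 : ℂ) = ∑ j ∈ range 27, ∑ l ∈ range 27, ((hh j * hh l : ℝ) : ℂ) *
    ((if ((j : ℤ) - (l : ℤ) + 1).natAbs = 0 then (1 : ℂ) else 0) -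
      991 / 1000 * (if ((j : ℤ) - (l : ℤ)).natAbs = 0 then (1 : ℂ) else 0)) := by
    rw [← const]
    push_cast
    rfl
  rw [h0]
  unfold P1 Ga
  rw [← Finset.sum_sub_distrib]
  have h1 : ∀ S : ℂ, 2 * w * (2⁻¹ * S) = w * S := by intro S; ring
  rw [h1, Finset.mul_sum]
  refine Finset.sum_congr rfl fun j _ => ?_
  rw [Finset.mul_sum, ← Finset.sum_sub_distrib]
  refine Finset.sum_congr rfl fun l _ => ?_
  have a1 := wqq ((j : ℤ) - (l : ℤ) + 1).natAbs w
  have a2 := wqq ((j : ℤ) - (l : ℤ)).natAbs w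
  linear_combination ((hh j * hh l : ℝ) : ℂ) * a1 - ((hh j * hh l : ℝ) : ℂ) * (991 / 1000) * a2

lemma Ga_re (v : ℂ) (hv : v * (starRingEnd ℂ) v = 1) :
    (Ga v).re = (v.re - 991 / 1000) * Complex.normSq (Hq v) := by
  have h1 : (Ga v).re = (∑ j ∈ range 27, ∑ l ∈ range 27, ((hh j * hh l : ℝ) : ℂ) *
      (v ^ (j + 1) * ((starRingEnd ℂ) v) ^ l -
        991 / 1000 * (v ^ j * ((starRingEnd ℂ) v) ^ l))).re := by
    unfold Ga
    rw [Complex.re_sum, Complex.re_sum]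
    refine Finset.sum_congr rfl fun j _ => ?_
    rw [Complex.re_sum, Complex.re_sum]
    refine Finset.sum_congr rfl fun l _ => ?_
    have b1 := pw v hv (j + 1) l
    have b2 := pw v hv j l
    have b3 : (((j + 1 : ℕ) : ℤ) - (l : ℤ)) = (j : ℤ) - (l : ℤ) + 1 := by push_cast; ring
    rw [b3] at b1
    have c : (991 / 1000 : ℂ) = ((991 / 1000 : ℝ) : ℂ) := by push_cast; rfl
    rw [c, Complex.re_ofReal_mul, Complex.re_ofReal_mul, Complex.sub_re, Complex.sub_re,
      Complex.re_ofReal_mul, Complex.re_ofReal_mul, b1, b2]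
  have h2 : ∑ j ∈ range 27, ∑ l ∈ range 27, ((hh j * hh l : ℝ) : ℂ) *
      (v ^ (j + 1) * ((starRingEnd ℂ) v) ^ l -
        991 / 1000 * (v ^ j * ((starRingEnd ℂ) v) ^ l)) =
      (v - 991 / 1000) * (Hq v * (starRingEnd ℂ) (Hq v)) := by
    unfold Hq
    rw [map_sum, Finset.sum_mul_sum, Finset.mul_sum]
    refine Finset.sum_congr rfl fun j _ => ?_
    rw [Finset.mul_sum]
    refine Finset.sum_congr rfl fun l _ => ?_
    rw [map_mul, map_pow, Complex.conj_ofReal]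
    push_cast
    ring
  rw [h1, h2, Complex.mul_conj, Complex.mul_re]
  have c : (v - 991 / 1000).re = v.re - 991 / 1000 := by
    have : (991 / 1000 : ℂ) = ((991 / 1000 : ℝ) : ℂ) := by push_cast; rfl
    rw [this, Complex.sub_re, Complex.ofReal_re]
  rw [c, Complex.ofReal_re, Complex.ofReal_im, mul_zero, sub_zero]

lemma sum_hh : ∑ j ∈ range 27, hh j = 3654 := by
  norm_num [Finset.sum_range_succ, hh]

lemma hh_nonneg {j : ℕ} (hj : j ∈ range 27) : 0 ≤ hh j := by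
  have h : (j : ℝ) < 27 := by exact_mod_cast Finset.mem_range.mp hj
  unfold hh
  have h0 : (0 : ℝ) ≤ (j : ℝ) := Nat.cast_nonneg j
  nlinarith

lemma Hq_le (v : ℂ) (hv : ‖v‖ = 1) : Complex.normSq (Hq v) ≤ 3654 ^ 2 := by
  have h1 : ‖Hq v‖ ≤ 3654 := by
    unfold Hq
    refine (norm_sum_le _ _).trans ?_
    rw [← sum_hh]
    refine Finset.sum_le_sum fun j hj => ?_
    rw [norm_mul, norm_pow, hv, one_pow, mul_one, Complex.norm_real, Real.norm_eq_abs,
      abs_of_nonneg (hh_nonneg hj)]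
  rw [Complex.normSq_eq_norm_sq]
  exact pow_le_pow_left₀ (norm_nonneg _) h1 2

lemma e0_conj : e0 * (starRingEnd ℂ) e0 = 1 := by
  unfold e0
  apply Complex.ext
  · simp [Complex.div_re, Complex.div_im, Complex.normSq_apply]
    norm_num
  · simp [Complex.div_re, Complex.div_im, Complex.normSq_apply]
    norm_num

/-- `w` on the axis -/
def ww (x : ℝ) : ℂ := (((1 - x ^ 2) / (1 + x ^ 2) : ℝ) : ℂ) + ((-(2 * x) / (1 + x ^ 2) : ℝ) : ℂ) * I

lemma ww_re (x : ℝ) : (ww x).re = (1 - x ^ 2) / (1 + x ^ 2) := by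
  unfold ww
  rw [Complex.add_re, Complex.re_ofReal_mul, Complex.ofReal_re, Complex.I_re, mul_zero, add_zero]

lemma ww_im (x : ℝ) : (ww x).im = -(2 * x) / (1 + x ^ 2) := by
  unfold ww
  rw [Complex.add_im, Complex.im_ofReal_mul, Complex.ofReal_im, Complex.I_im, mul_one, zero_add]

lemma pos1 (x : ℝ) : 0 < 1 + x ^ 2 := by positivity

lemma ww_conj (x : ℝ) : ww x * (starRingEnd ℂ) (ww x) = 1 := by
  rw [Complex.mul_conj, Complex.normSq_apply, ww_re, ww_im]
  have h := (pos1 x).ne'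
  have : (1 - x ^ 2) / (1 + x ^ 2) * ((1 - x ^ 2) / (1 + x ^ 2)) +
    -(2 * x) / (1 + x ^ 2) * (-(2 * x) / (1 + x ^ 2)) = 1 := by
    field_simp
    ring
  rw [this, Complex.ofReal_one]

lemma ne1 (x : ℝ) : (1 : ℂ) + (x : ℂ) * I ≠ 0 := by
  intro h
  have := congrArg Complex.re h
  simp at this

lemma uu_eq (Y : ℝ) : 2 * uu ((Y : ℂ) * I) = 1 + ww (1000 * Y - 999) := by
  set x : ℝ := 1000 * Y - 999 with hx
  have h1 : (Y : ℂ) * I + 1 / 1000 - 999 / 1000 * I = (1 + (x : ℂ) * I) / 1000 := by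
    rw [hx]; push_cast; ring
  have h2 : (ww x) * (1 + (x : ℂ) * I) = 1 - (x : ℂ) * I := by
    have h := (pos1 x).ne'
    apply Complex.ext
    · simp only [Complex.mul_re, ww_re, ww_im, Complex.add_re, Complex.one_re, Complex.ofReal_re,
        Complex.I_re, Complex.ofReal_im, Complex.I_im, Complex.add_im, Complex.one_im,
        Complex.mul_im, Complex.sub_re]
      field_simp
      ring
    · simp only [Complex.mul_re, ww_re, ww_im, Complex.add_re, Complex.one_re, Complex.ofReal_re,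
        Complex.I_re, Complex.ofReal_im, Complex.I_im, Complex.add_im, Complex.one_im,
        Complex.mul_im, Complex.sub_im]
      field_simp
      ring
  have h3 := ne1 x
  unfold uu
  rw [h1]
  have h4 : (2 : ℂ) * (1 / 1000 / ((1 + (x : ℂ) * I) / 1000)) = 2 / (1 + (x : ℂ) * I) := by
    field_simp
  rw [h4, div_eq_iff h3]
  linear_combination -h2

lemma Fq_re (Y : ℝ) : (Fq ((Y : ℂ) * I)).re =
    (1 + (ww (1000 * Y - 999)).re) *
      (((e0 * ww (1000 * Y - 999)).re - 991 / 1000) *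
        Complex.normSq (Hq (e0 * ww (1000 * Y - 999)))) := by
  set w := ww (1000 * Y - 999) with hw
  have hu : 2 * uu ((Y : ℂ) * I) = 1 + w := uu_eq Y
  have hc : w * (starRingEnd ℂ) w = 1 := ww_conj _
  have ha : w + (starRingEnd ℂ) w = ((2 * w.re : ℝ) : ℂ) := Complex.add_conj w
  have hv : (e0 * w) * (starRingEnd ℂ) (e0 * w) = 1 := by
    rw [map_mul]
    linear_combination (w * (starRingEnd ℂ) w) * e0_conj + hc
  have h2 := two_w w
  have h3 : Fq ((Y : ℂ) * I) = (1 + w) * (g0 : ℂ) + ((1 + w.re : ℝ) : ℂ) * (Ga (e0 * w) - (g0 : ℂ)) := by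
    unfold Fq
    have e1 : 2 * uu ((Y : ℂ) * I) - 1 = w := by rw [hu]; ring
    have e2 : 4 * uu ((Y : ℂ) * I) ^ 2 = (1 + w) ^ 2 := by rw [← hu]; ring
    rw [e1, e2, hu, ← h2]
    push_cast at ha ⊢
    linear_combination (-P1 w) * hc + (w * P1 w) * ha
  rw [h3, Complex.add_re, Complex.re_ofReal_mul, Complex.sub_re, Complex.ofReal_re, Ga_re _ hv]
  have e3 : ((1 + w) * (g0 : ℂ)).re = (1 + w.re) * g0 := by
    rw [Complex.re_mul_ofReal, Complex.add_re, Complex.one_re]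
  rw [e3]
  ring

lemma v_re (x : ℝ) : (e0 * ww x).re = (-119 + 119 * x ^ 2 + 240 * x) / (169 * (1 + x ^ 2)) := by
  have h := (pos1 x).ne'
  have h1 : e0.re = -119 / 169 := by simp [e0]
  have h2 : e0.im = 120 / 169 := by simp [e0]
  rw [Complex.mul_re, ww_re, ww_im, h1, h2]
  field_simp
  ring

end

end PHIAx

open PHIAx in
theorem phia : PHIA := by
  intro Y
  have hF := Fq_re Y
  set x : ℝ := 1000 * Y - 999 with hx
  have hp := pos1 x
  have h1 : 0 ≤ 1 + (ww x).re := by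
    rw [ww_re, show (1 : ℝ) + (1 - x ^ 2) / (1 + x ^ 2) = 2 / (1 + x ^ 2) by field_simp; ring]
    positivity
  have h2 : 1 + (ww x).re ≤ 2 := by
    rw [ww_re, show (1 : ℝ) + (1 - x ^ 2) / (1 + x ^ 2) = 2 / (1 + x ^ 2) by field_simp; ring,
      div_le_iff₀ hp]
    nlinarith [sq_nonneg x]
  have hc : ww x * (starRingEnd ℂ) (ww x) = 1 := ww_conj _
  have hv : (e0 * ww x) * (starRingEnd ℂ) (e0 * ww x) = 1 := by
    rw [map_mul]
    linear_combination (ww x * (starRingEnd ℂ) (ww x)) * e0_conj + hc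
  have hn : ‖e0 * ww x‖ = 1 := by
    have h3 : ((‖e0 * ww x‖ ^ 2 : ℝ) : ℂ) = 1 := by
      rw [← Complex.normSq_eq_norm_sq, ← Complex.mul_conj, hv]
    have h4 : ‖e0 * ww x‖ ^ 2 = 1 := by exact_mod_cast h3
    nlinarith [norm_nonneg (e0 * ww x)]
  have hr : (e0 * ww x).re ≤ 1 := by
    rw [← hn]; exact Complex.re_le_norm _
  have hH := Hq_le _ hn
  have hH0 := Complex.normSq_nonneg (Hq (e0 * ww x))
  refine ⟨?_, ?_⟩
  · rw [hF]
    have k1 : ((e0 * ww x).re - 991 / 1000) * Complex.normSq (Hq (e0 * ww x)) ≤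
        9 / 1000 * 3654 ^ 2 := by
      rcases le_total ((e0 * ww x).re - 991 / 1000) 0 with h | h
      · have := mul_nonpos_of_nonpos_of_nonneg h hH0
        nlinarith
      · have := mul_le_mul (show (e0 * ww x).re - 991 / 1000 ≤ 9 / 1000 by linarith) hH hH0
          (by norm_num)
        linarith
    have k2 : (1 + (ww x).re) * (((e0 * ww x).re - 991 / 1000) *
        Complex.normSq (Hq (e0 * ww x))) ≤ (1 + (ww x).re) * (9 / 1000 * 3654 ^ 2) :=
      mul_le_mul_of_nonneg_left k1 h1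
    nlinarith
  · intro hY
    rw [hF]
    have k0 : (e0 * ww x).re - 991 / 1000 ≤ 0 := by
      rw [v_re, sub_nonpos, div_le_iff₀ (by positivity)]
      rcases hY with h | h
      · have hx2 : x ≤ 2002 / 1000 := by rw [hx]; linarith
        nlinarith [mul_nonneg (sub_nonneg.mpr hx2) (sub_nonneg.mpr hx2)]
      · have hx3 : 3 ≤ x := by rw [hx]; linarith
        nlinarith [mul_nonneg (sub_nonneg.mpr hx3) (sub_nonneg.mpr hx3)]
    exact mul_nonpos_of_nonneg_of_nonpos h1 (mul_nonpos_of_nonpos_of_nonneg k0 hH0)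

end Pool.Agent.BLQ
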