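import Pool.Agent.Lib.BLQ.PhiDefs

/-!
Project BLQ (MP_ef2672), row PHIB: the perturbation on `Om` (helper48).
-/

open Complex MeasureTheory Finset Set

namespace Pool.Agent.BLQ

namespace PHIBx

noncomputable section

lemma qq_diff (k : ℕ) : Differentiable ℂ (qq k) := by
  unfold qq
  by_cases h : k = 0
  · simp only [if_pos h]
    exact differentiable_const 0
  · simp only [if_neg h]
    exact (differentiable_id.pow (k - 1)).const_mul (e0 ^ k)

lemma P1_diff : Differentiable ℂ P1 := by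
  unfold P1
  refine Differentiable.const_mul ?_ _
  refine Differentiable.fun_sum fun j _ => ?_
  refine Differentiable.fun_sum fun l _ => ?_
  exact ((qq_diff _).sub ((qq_diff _).const_mul _)).const_mul _

lemma P1_bd : ∃ M : ℝ, 0 ≤ M ∧ ∀ w : ℂ, ‖w‖ ≤ 3 → ‖P1 w‖ ≤ M := by
  obtain ⟨M, hM⟩ := (isCompact_closedBall (0 : ℂ) 3).exists_bound_of_continuousOn
    P1_diff.continuous.continuousOn
  refine ⟨max M 0, le_max_right _ _, fun w hw => (hM w ?_).trans (le_max_left _ _)⟩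
  simpa using hw

/-- the denominator -/
def DD (z : ℂ) : ℂ := z + 1 / 1000 - 999 / 1000 * I

lemma DD_re (z : ℂ) : (DD z).re = z.re + 1 / 1000 := by
  simp [DD]

lemma DD_im (z : ℂ) : (DD z).im = z.im - 999 / 1000 := by
  simp [DD]

lemma DD_ge {z : ℂ} (hz : z ∈ Om) : 1 / 1000 ≤ ‖DD z‖ := by
  rcases hz with h | h
  · refine le_trans ?_ (Complex.re_le_norm _)
    rw [DD_re]
    linarith
  · refine le_trans ?_ (Complex.abs_im_le_norm _)
    rw [DD_im]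
    rcases le_abs.mp h with h1 | h1
    · rw [le_abs]; left; linarith
    · rw [le_abs]; right; linarith

lemma c0_le : ‖(1 / 1000 - 999 / 1000 * I : ℂ)‖ ≤ 1 := by
  have h1 : ‖(1 / 1000 - 999 / 1000 * I : ℂ)‖ ^ 2 ≤ 1 := by
    rw [← Complex.normSq_eq_norm_sq, Complex.normSq_apply]
    simp
    norm_num
  nlinarith [norm_nonneg (1 / 1000 - 999 / 1000 * I : ℂ)]

lemma DD_ge2 {z : ℂ} (hz : z ∈ Om) : ‖z‖ / 2000 ≤ ‖DD z‖ := by
  rcases le_total ‖z‖ 2 with h | h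
  · have := DD_ge hz
    linarith
  · have h1 : ‖z‖ ≤ ‖DD z‖ + 1 := by
      have : z = DD z - (1 / 1000 - 999 / 1000 * I) := by unfold DD; ring
      calc ‖z‖ = ‖DD z - (1 / 1000 - 999 / 1000 * I)‖ := by rw [← this]
        _ ≤ ‖DD z‖ + ‖(1 / 1000 - 999 / 1000 * I : ℂ)‖ := norm_sub_le _ _
        _ ≤ ‖DD z‖ + 1 := by linarith [c0_le]
    linarith

lemma uu_norm (z : ℂ) : ‖uu z‖ = 1 / 1000 / ‖DD z‖ := by
  have : uu z = (1 / 1000) / DD z := rfl
  rw [this, norm_div]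
  congr 1
  simp

end

end PHIBx

open PHIBx in
theorem phib : PHIB := by
  obtain ⟨M, hM0, hM⟩ := P1_bd
  have hg : (0 : ℝ) ≤ g0 := by norm_num [g0]
  refine ⟨4 * g0 + 16 * M, by positivity, fun z hz => ?_⟩
  have hD := DD_ge hz
  have hDp : 0 < ‖DD z‖ := by linarith
  have hD0 : DD z ≠ 0 := norm_pos_iff.mp hDp
  have hu1 : ‖uu z‖ ≤ 1 := by
    rw [uu_norm, div_le_one hDp]
    exact hD
  have hw : ‖2 * uu z - 1‖ ≤ 3 := by
    calc ‖2 * uu z - 1‖ ≤ ‖2 * uu z‖ + ‖(1 : ℂ)‖ := norm_sub_le _ _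
      _ = 2 * ‖uu z‖ + 1 := by rw [norm_mul, Complex.norm_ofNat, norm_one]
      _ ≤ 3 := by linarith
  have hP := hM _ hw
  have hud : DifferentiableAt ℂ uu z := by
    have h1 : uu = fun z => (1 / 1000 : ℂ) / DD z := rfl
    rw [h1]
    refine DifferentiableAt.div (differentiableAt_const _) ?_ hD0
    unfold DD
    fun_prop
  have hgn : ‖(g0 : ℂ)‖ = g0 := by
    rw [Complex.norm_real, Real.norm_eq_abs, abs_of_nonneg hg]
  refine ⟨?_, ?_, ?_⟩
  · have hin : DifferentiableAt ℂ (fun z => 2 * uu z - 1) z := (hud.const_mul 2).sub_const 1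
    have hout : DifferentiableAt ℂ P1 ((fun z => 2 * uu z - 1) z) := P1_diff _
    have hcomp : DifferentiableAt ℂ (P1 ∘ (fun z => 2 * uu z - 1)) z :=
      DifferentiableAt.comp (g := P1) (f := fun z => 2 * uu z - 1) z hout hin
    have hq : DifferentiableAt ℂ (fun z => 4 * uu z ^ 2) z := (hud.pow 2).const_mul 4
    have hl : DifferentiableAt ℂ (fun z => 2 * uu z * (g0 : ℂ)) z := (hud.const_mul 2).mul_const _
    exact hl.fun_add (hq.fun_mul hcomp)
  · unfold Fq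
    calc ‖2 * uu z * (g0 : ℂ) + 4 * uu z ^ 2 * P1 (2 * uu z - 1)‖
        ≤ ‖2 * uu z * (g0 : ℂ)‖ + ‖4 * uu z ^ 2 * P1 (2 * uu z - 1)‖ := norm_add_le _ _
      _ = 2 * ‖uu z‖ * g0 + 4 * ‖uu z‖ ^ 2 * ‖P1 (2 * uu z - 1)‖ := by
        rw [norm_mul, norm_mul, norm_mul, norm_mul, norm_pow, hgn, Complex.norm_ofNat,
          Complex.norm_ofNat]
      _ ≤ 2 * 1 * g0 + 4 * 1 ^ 2 * M := by gcongr
      _ ≤ 4 * g0 + 16 * M := by linarith
  · intro hz1
    have hzp : 0 < ‖z‖ := by linarith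
    have hz0 : z ≠ 0 := norm_pos_iff.mp hzp
    have hD2 := DD_ge2 hz
    have hu2 : ‖uu z‖ ≤ 2 / ‖z‖ := by
      rw [uu_norm, div_le_div_iff₀ hDp hzp]
      linarith
    have hdif : uu z - (1 / 1000) / z = (1 / 1000) * (-(1 / 1000 - 999 / 1000 * I)) / (z * DD z) := by
      have : uu z = (1 / 1000) / DD z := rfl
      rw [this, div_sub_div _ _ hD0 hz0]
      congr 1
      · unfold DD; ring
      · ring
    have hdn : ‖uu z - (1 / 1000) / z‖ ≤ 2 / ‖z‖ ^ 2 := by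
      rw [hdif, norm_div, norm_mul, norm_neg, norm_mul, div_le_div_iff₀ (by positivity) (by positivity)]
      have h3 : ‖(1 / 1000 : ℂ)‖ = 1 / 1000 := by simp
      rw [h3]
      have h4 := c0_le
      have h5 : 1 / 1000 * ‖(1 / 1000 - 999 / 1000 * I : ℂ)‖ * ‖z‖ ^ 2 ≤ 1 / 1000 * 1 * ‖z‖ ^ 2 := by
        gcongr
      have h6 : ‖z‖ * (‖z‖ / 2000) ≤ ‖z‖ * ‖DD z‖ := by gcongr
      nlinarith
    have hF : Fq z - (754551 / 250000) / z =
        2 * (g0 : ℂ) * (uu z - (1 / 1000) / z) + 4 * uu z ^ 2 * P1 (2 * uu z - 1) := by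
      unfold Fq
      have : ((754551 / 250000 : ℂ)) = 2 * (g0 : ℂ) * (1 / 1000) := by
        unfold g0; push_cast; norm_num
      rw [this]
      ring
    rw [hF]
    calc ‖2 * (g0 : ℂ) * (uu z - (1 / 1000) / z) + 4 * uu z ^ 2 * P1 (2 * uu z - 1)‖
        ≤ ‖2 * (g0 : ℂ) * (uu z - (1 / 1000) / z)‖ + ‖4 * uu z ^ 2 * P1 (2 * uu z - 1)‖ :=
          norm_add_le _ _
      _ = 2 * g0 * ‖uu z - (1 / 1000) / z‖ + 4 * ‖uu z‖ ^ 2 * ‖P1 (2 * uu z - 1)‖ := by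
        rw [norm_mul, norm_mul, norm_mul, norm_mul, norm_pow, hgn, Complex.norm_ofNat,
          Complex.norm_ofNat]
      _ ≤ 2 * g0 * (2 / ‖z‖ ^ 2) + 4 * (2 / ‖z‖) ^ 2 * M := by gcongr
      _ = (4 * g0 + 16 * M) / ‖z‖ ^ 2 := by
        field_simp
        ring

end Pool.Agent.BLQ
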