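import Pool.Agent.Lib.BLQ.PhiDefs

/-!
# Row PHIC (MP_ef2672): second differences of the perturbation.  helper93
-/

set_option autoImplicit false

open Complex MeasureTheory Finset Set

namespace Pool.Agent.BLQ

noncomputable section

namespace PHICx

/-- differences of powers -/
lemma pow_sub_le {a c : ℂ} {r : ℝ} (hr : 1 ≤ r) (ha : ‖a‖ ≤ r) (hc : ‖c‖ ≤ 1) (k : ℕ) :
    ‖a ^ k - c ^ k‖ ≤ k * r ^ k * ‖a - c‖ := by
  induction k with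
  | zero => simp
  | succ k ih =>
    have h1 : a ^ (k + 1) - c ^ (k + 1) = a * (a ^ k - c ^ k) + (a - c) * c ^ k := by ring
    rw [h1]
    refine (norm_add_le _ _).trans ?_
    rw [norm_mul, norm_mul, norm_pow]
    have h2 : ‖a‖ * ‖a ^ k - c ^ k‖ ≤ r * (k * r ^ k * ‖a - c‖) :=
      mul_le_mul ha ih (norm_nonneg _) (by linarith)
    have h3 : ‖a - c‖ * ‖c‖ ^ k ≤ ‖a - c‖ * r ^ (k + 1) :=
      mul_le_mul_of_nonneg_left ((pow_le_one₀ (norm_nonneg _) hc).trans (one_le_pow₀ hr))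
        (norm_nonneg _)
    push_cast
    calc ‖a‖ * ‖a ^ k - c ^ k‖ + ‖a - c‖ * ‖c‖ ^ k
        ≤ r * (k * r ^ k * ‖a - c‖) + ‖a - c‖ * r ^ (k + 1) := add_le_add h2 h3
      _ = _ := by ring

/-- second differences of powers -/
lemma sec_pow {a b c : ℂ} {r δ : ℝ} (hr : 1 ≤ r) (ha : ‖a‖ ≤ r) (hb : ‖b‖ ≤ r) (hc : ‖c‖ ≤ 1)
    (hδ : 0 ≤ δ) (h1 : ‖a + b - 2 * c‖ ≤ δ) (h2 : ‖a - c‖ ^ 2 ≤ δ) (h3 : ‖b - c‖ ^ 2 ≤ δ) (k : ℕ) :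
    ‖a ^ k + b ^ k - 2 * c ^ k‖ ≤ (k : ℝ) ^ 2 * r ^ k * δ := by
  induction k with
  | zero =>
    simp only [pow_zero]
    norm_num
  | succ k ih =>
    have e1 : a ^ (k + 1) + b ^ (k + 1) - 2 * c ^ (k + 1) =
        c * (a ^ k + b ^ k - 2 * c ^ k) + ((a - c) * (a ^ k - c ^ k) + (b - c) * (b ^ k - c ^ k)) +
        (a + b - 2 * c) * c ^ k := by ring
    rw [e1]
    have hrk : 1 ≤ r ^ k := one_le_pow₀ hr
    have n1 : ‖c * (a ^ k + b ^ k - 2 * c ^ k)‖ ≤ (k : ℝ) ^ 2 * r ^ k * δ := by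
      rw [norm_mul]
      calc ‖c‖ * ‖a ^ k + b ^ k - 2 * c ^ k‖ ≤ 1 * ((k : ℝ) ^ 2 * r ^ k * δ) :=
            mul_le_mul hc ih (norm_nonneg _) zero_le_one
        _ = _ := one_mul _
    have n2 : ∀ x : ℂ, ‖x‖ ≤ r → ‖x - c‖ ^ 2 ≤ δ →
        ‖(x - c) * (x ^ k - c ^ k)‖ ≤ k * r ^ k * δ := by
      intro x hx hx2
      rw [norm_mul]
      have := pow_sub_le hr hx hc k
      calc ‖x - c‖ * ‖x ^ k - c ^ k‖ ≤ ‖x - c‖ * (k * r ^ k * ‖x - c‖) :=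
            mul_le_mul_of_nonneg_left this (norm_nonneg _)
        _ = k * r ^ k * ‖x - c‖ ^ 2 := by ring
        _ ≤ k * r ^ k * δ := mul_le_mul_of_nonneg_left hx2 (by positivity)
    have n4 : ‖(a + b - 2 * c) * c ^ k‖ ≤ r ^ k * δ := by
      rw [norm_mul, norm_pow]
      calc ‖a + b - 2 * c‖ * ‖c‖ ^ k ≤ δ * r ^ k :=
            mul_le_mul h1 ((pow_le_one₀ (norm_nonneg _) hc).trans hrk) (by positivity) hδ
        _ = _ := mul_comm _ _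
    have n5 := norm_add_le (c * (a ^ k + b ^ k - 2 * c ^ k))
      ((a - c) * (a ^ k - c ^ k) + (b - c) * (b ^ k - c ^ k))
    have n6 := norm_add_le ((a - c) * (a ^ k - c ^ k)) ((b - c) * (b ^ k - c ^ k))
    have n7 := norm_add_le (c * (a ^ k + b ^ k - 2 * c ^ k) +
      ((a - c) * (a ^ k - c ^ k) + (b - c) * (b ^ k - c ^ k))) ((a + b - 2 * c) * c ^ k)
    have n8 := n2 a ha h2
    have n9 := n2 b hb h3
    have n10 : ((k : ℝ) + 1) ^ 2 * r ^ k * δ ≤ ((k : ℝ) + 1) ^ 2 * r ^ (k + 1) * δ := by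
      refine mul_le_mul_of_nonneg_right ?_ hδ
      exact mul_le_mul_of_nonneg_left (pow_le_pow_right₀ hr (Nat.le_succ k)) (by positivity)
    push_cast
    calc _ ≤ (k : ℝ) ^ 2 * r ^ k * δ + (k * r ^ k * δ + k * r ^ k * δ) + r ^ k * δ := by
          linarith
      _ = ((k : ℝ) + 1) ^ 2 * r ^ k * δ := by ring
      _ ≤ _ := n10

lemma norm_e0 : ‖e0‖ = 1 := by
  have h : ‖e0‖ ^ 2 = 1 := by
    rw [← Complex.normSq_eq_norm_sq, Complex.normSq_apply]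
    have h1 : e0.re = -119 / 169 := by simp [e0]
    have h2 : e0.im = 120 / 169 := by simp [e0]
    rw [h1, h2]
    norm_num
  have h0 := norm_nonneg e0
  nlinarith

/-- the second difference -/
def Dd (f : ℂ → ℂ) (a b c : ℂ) : ℂ := f a + f b - 2 * f c

/-- one monomial -/
lemma sec_qq {a b c : ℂ} {r δ : ℝ} (hr : 1 ≤ r) (ha : ‖a‖ ≤ r) (hb : ‖b‖ ≤ r) (hc : ‖c‖ ≤ 1)
    (hδ : 0 ≤ δ) (h1 : ‖a + b - 2 * c‖ ≤ δ) (h2 : ‖a - c‖ ^ 2 ≤ δ) (h3 : ‖b - c‖ ^ 2 ≤ δ) (k : ℕ)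
    (hk : k ≤ 27) :
    ‖(1 + a) ^ 2 * qq k a + (1 + b) ^ 2 * qq k b - 2 * ((1 + c) ^ 2 * qq k c)‖ ≤
      3136 * r ^ 28 * δ := by
  have hr0 : 0 ≤ r := by linarith
  rcases k with _ | k
  · simp only [qq, if_true, mul_zero, add_zero, sub_zero, norm_zero]
    positivity
  · have hq : ∀ x : ℂ, (1 + x) ^ 2 * qq (k + 1) x =
        e0 ^ (k + 1) * (x ^ k + 2 * x ^ (k + 1) + x ^ (k + 2)) := by
      intro x
      simp only [qq, Nat.succ_ne_zero, if_false, Nat.add_sub_cancel]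
      ring
    have e : (1 + a) ^ 2 * qq (k + 1) a + (1 + b) ^ 2 * qq (k + 1) b -
        2 * ((1 + c) ^ 2 * qq (k + 1) c) = e0 ^ (k + 1) * ((a ^ k + b ^ k - 2 * c ^ k) +
          2 * (a ^ (k + 1) + b ^ (k + 1) - 2 * c ^ (k + 1)) +
          (a ^ (k + 2) + b ^ (k + 2) - 2 * c ^ (k + 2))) := by
      rw [hq, hq, hq]
      ring
    rw [e, norm_mul, norm_pow, norm_e0, one_pow, one_mul]
    have hs : ∀ j : ℕ, j ≤ 28 → ‖a ^ j + b ^ j - 2 * c ^ j‖ ≤ 784 * r ^ 28 * δ := by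
      intro j hj
      refine (sec_pow hr ha hb hc hδ h1 h2 h3 j).trans ?_
      refine mul_le_mul_of_nonneg_right ?_ hδ
      refine mul_le_mul ?_ (pow_le_pow_right₀ hr hj) (by positivity) (by norm_num)
      have : (j : ℝ) ≤ 28 := by exact_mod_cast hj
      nlinarith [Nat.cast_nonneg (α := ℝ) j]
    have m1 := hs k (by omega)
    have m2 := hs (k + 1) (by omega)
    have m3 := hs (k + 2) (by omega)
    have m4 := norm_add_le ((a ^ k + b ^ k - 2 * c ^ k) +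
      2 * (a ^ (k + 1) + b ^ (k + 1) - 2 * c ^ (k + 1)))
      (a ^ (k + 2) + b ^ (k + 2) - 2 * c ^ (k + 2))
    have m5 := norm_add_le (a ^ k + b ^ k - 2 * c ^ k)
      (2 * (a ^ (k + 1) + b ^ (k + 1) - 2 * c ^ (k + 1)))
    have m6 : ‖2 * (a ^ (k + 1) + b ^ (k + 1) - 2 * c ^ (k + 1))‖ =
        2 * ‖a ^ (k + 1) + b ^ (k + 1) - 2 * c ^ (k + 1)‖ := by
      rw [norm_mul]
      norm_num
    linarith

lemma hh_nonneg {j : ℕ} (hj : j ∈ range 27) : 0 ≤ hh j := by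
  rw [Finset.mem_range] at hj
  have : (j : ℝ) ≤ 27 := by exact_mod_cast hj.le
  unfold hh
  exact mul_nonneg (by positivity) (by linarith)

lemma sum_hh : ∑ j ∈ range 27, hh j = 3654 := by
  simp only [Finset.sum_range_succ, Finset.sum_range_zero, hh]
  norm_num

/-- the whole sum -/
lemma sec_P1 {a b c : ℂ} {r δ : ℝ} (hr : 1 ≤ r) (ha : ‖a‖ ≤ r) (hb : ‖b‖ ≤ r) (hc : ‖c‖ ≤ 1)
    (hδ : 0 ≤ δ) (h1 : ‖a + b - 2 * c‖ ≤ δ) (h2 : ‖a - c‖ ^ 2 ≤ δ) (h3 : ‖b - c‖ ^ 2 ≤ δ) :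
    ‖(1 + a) ^ 2 * P1 a + (1 + b) ^ 2 * P1 b - 2 * ((1 + c) ^ 2 * P1 c)‖ ≤
      2⁻¹ * (3654 ^ 2 * (2 * (3136 * r ^ 28 * δ))) := by
  have hr0 : 0 ≤ r := by linarith
  set G : ℕ → ℂ := fun k => (1 + a) ^ 2 * qq k a + (1 + b) ^ 2 * qq k b -
    2 * ((1 + c) ^ 2 * qq k c) with hG
  have hGn : ∀ k ≤ 27, ‖G k‖ ≤ 3136 * r ^ 28 * δ := fun k hk =>
    sec_qq hr ha hb hc hδ h1 h2 h3 k hk
  have e : (1 + a) ^ 2 * P1 a + (1 + b) ^ 2 * P1 b - 2 * ((1 + c) ^ 2 * P1 c) =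
      2⁻¹ * ∑ j ∈ range 27, ∑ l ∈ range 27, ((hh j * hh l : ℝ) : ℂ) *
        (G ((j : ℤ) - (l : ℤ) + 1).natAbs - 991 / 1000 * G ((j : ℤ) - (l : ℤ)).natAbs) := by
    simp only [P1]
    have hm : ∀ x : ℂ, (1 + x) ^ 2 * (2⁻¹ * ∑ j ∈ range 27, ∑ l ∈ range 27,
        ((hh j * hh l : ℝ) : ℂ) * (qq ((j : ℤ) - (l : ℤ) + 1).natAbs x -
          991 / 1000 * qq ((j : ℤ) - (l : ℤ)).natAbs x)) =
        2⁻¹ * ∑ j ∈ range 27, ∑ l ∈ range 27, ((hh j * hh l : ℝ) : ℂ) *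
          ((1 + x) ^ 2 * qq ((j : ℤ) - (l : ℤ) + 1).natAbs x -
            991 / 1000 * ((1 + x) ^ 2 * qq ((j : ℤ) - (l : ℤ)).natAbs x)) := by
      intro x
      rw [mul_left_comm, Finset.mul_sum]
      congr 1
      refine Finset.sum_congr rfl fun j _ => ?_
      rw [Finset.mul_sum]
      exact Finset.sum_congr rfl fun l _ => by ring
    rw [hm, hm, hm, mul_left_comm 2, ← mul_add, ← mul_sub]
    congr 1
    rw [Finset.mul_sum, ← Finset.sum_add_distrib, ← Finset.sum_sub_distrib]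
    refine Finset.sum_congr rfl fun j _ => ?_
    rw [Finset.mul_sum, ← Finset.sum_add_distrib, ← Finset.sum_sub_distrib]
    refine Finset.sum_congr rfl fun l _ => ?_
    simp only [hG]
    ring
  rw [e, norm_mul]
  have h2' : ‖(2⁻¹ : ℂ)‖ = 2⁻¹ := by norm_num
  rw [h2']
  refine mul_le_mul_of_nonneg_left ?_ (by norm_num)
  have hS : (3654 : ℝ) ^ 2 * (2 * (3136 * r ^ 28 * δ)) = ∑ j ∈ range 27, ∑ l ∈ range 27,
      hh j * hh l * (2 * (3136 * r ^ 28 * δ)) := by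
    rw [← sum_hh, sq, Finset.sum_mul_sum, Finset.sum_mul]
    exact Finset.sum_congr rfl fun j _ => by rw [Finset.sum_mul]
  rw [hS]
  refine (norm_sum_le _ _).trans (Finset.sum_le_sum fun j hj => ?_)
  refine (norm_sum_le _ _).trans (Finset.sum_le_sum fun l hl => ?_)
  rw [norm_mul, Complex.norm_real, Real.norm_of_nonneg (mul_nonneg (hh_nonneg hj) (hh_nonneg hl))]
  refine mul_le_mul_of_nonneg_left ?_ (mul_nonneg (hh_nonneg hj) (hh_nonneg hl))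
  rw [Finset.mem_range] at hj hl
  have g1 := hGn ((j : ℤ) - (l : ℤ) + 1).natAbs (by omega)
  have g2 := hGn ((j : ℤ) - (l : ℤ)).natAbs (by omega)
  have g3 : ‖(991 / 1000 : ℂ) * G ((j : ℤ) - (l : ℤ)).natAbs‖ ≤ 3136 * r ^ 28 * δ := by
    rw [norm_mul]
    have : ‖(991 / 1000 : ℂ)‖ ≤ 1 := by norm_num
    calc _ ≤ 1 * ‖G ((j : ℤ) - (l : ℤ)).natAbs‖ :=
          mul_le_mul_of_nonneg_right this (norm_nonneg _)
      _ ≤ _ := by rw [one_mul]; exact g2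
  have g4 := norm_sub_le (G ((j : ℤ) - (l : ℤ) + 1).natAbs)
    ((991 / 1000 : ℂ) * G ((j : ℤ) - (l : ℤ)).natAbs)
  linarith

/-- the denominators -/
def dd (Y s : ℝ) : ℂ := ⟨s + 1 / 1000, Y - 999 / 1000⟩

lemma norm_dd (Y s : ℝ) : ‖dd Y s‖ ^ 2 = (s + 1 / 1000) ^ 2 + (Y - 999 / 1000) ^ 2 := by
  rw [← Complex.normSq_eq_norm_sq, Complex.normSq_apply]
  simp only [dd]
  ring

lemma Ysq {Y : ℝ} (hY : 1 ≤ |Y|) : Y ^ 2 / 10 ^ 6 ≤ (Y - 999 / 1000) ^ 2 := by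
  rcases le_abs.1 hY with h | h
  · nlinarith
  · nlinarith

lemma one_le_sq {Y : ℝ} (hY : 1 ≤ |Y|) : 1 ≤ Y ^ 2 := by
  rw [← sq_abs]
  nlinarith

lemma dd_ge {Y : ℝ} (hY : 1 ≤ |Y|) (t : ℝ) :
    5 / 10 ^ 7 * (Y ^ 2 * (1 + t ^ 2)) ≤ ‖dd Y (Y * t)‖ ^ 2 := by
  rw [norm_dd]
  have h1 := Ysq hY
  have h2 := one_le_sq hY
  by_cases ht : t ^ 2 ≤ 1
  · have h3 : Y ^ 2 * (1 + t ^ 2) ≤ Y ^ 2 * 2 := mul_le_mul_of_nonneg_left (by linarith) (sq_nonneg _)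
    nlinarith [sq_nonneg (Y * t + 1 / 1000)]
  · push Not at ht
    have h3 : Y ^ 2 * (1 + t ^ 2) ≤ Y ^ 2 * (2 * t ^ 2) :=
      mul_le_mul_of_nonneg_left (by linarith) (sq_nonneg _)
    have h4 : 1 ≤ (Y * t) ^ 2 := by
      rw [mul_pow]
      nlinarith
    have h5 : (Y * t) ^ 2 / 2 ≤ (Y * t + 1 / 1000) ^ 2 + 1 / 10 ^ 6 := by
      nlinarith [sq_nonneg (Y * t + 2 / 1000)]
    have h6 : Y ^ 2 * (2 * t ^ 2) = 2 * (Y * t) ^ 2 := by ring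
    nlinarith [sq_nonneg (Y - 999 / 1000)]

lemma dd_ne {Y : ℝ} (hY : 1 ≤ |Y|) (t : ℝ) : dd Y (Y * t) ≠ 0 := by
  intro h
  have h1 := dd_ge hY t
  have h2 := one_le_sq hY
  rw [h, norm_zero] at h1
  have h3 : 0 < Y ^ 2 * (1 + t ^ 2) := by positivity
  linarith

/-- `|w| ≤ 2.415` -/
lemma w_le {Y : ℝ} (hY : 1 ≤ |Y|) (t : ℝ) :
    ‖2 * ((1 / 1000 : ℂ) / dd Y (Y * t)) - 1‖ ≤ 2415 / 1000 := by
  have h0 := dd_ne hY t
  have e : 2 * ((1 / 1000 : ℂ) / dd Y (Y * t)) - 1 = (2 / 1000 - dd Y (Y * t)) / dd Y (Y * t) := by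
    field_simp
  rw [e, norm_div, div_le_iff₀ (norm_pos_iff.2 h0)]
  refine le_of_sq_le_sq ?_ (by positivity)
  rw [mul_pow, norm_dd]
  have h1 : ‖(2 / 1000 : ℂ) - dd Y (Y * t)‖ ^ 2 =
      (1 / 1000 - Y * t) ^ 2 + (Y - 999 / 1000) ^ 2 := by
    rw [← Complex.normSq_eq_norm_sq, Complex.normSq_apply]
    simp only [dd, Complex.sub_re, Complex.sub_im]
    norm_num
    ring
  rw [h1]
  have h2 : 1 / 10 ^ 6 ≤ (Y - 999 / 1000) ^ 2 := by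
    have := Ysq hY
    have := one_le_sq hY
    linarith
  nlinarith [sq_nonneg (Y * t + 1 / 1000 + 2 / 4832)]

/-- the values on the imaginary axis -/
lemma w0_le {Y : ℝ} (hY : 1 ≤ |Y|) : ‖2 * ((1 / 1000 : ℂ) / dd Y 0) - 1‖ ≤ 1 := by
  have h0 := dd_ne hY 0
  rw [mul_zero] at h0
  have e : 2 * ((1 / 1000 : ℂ) / dd Y 0) - 1 = (2 / 1000 - dd Y 0) / dd Y 0 := by
    field_simp
  rw [e, norm_div, div_le_iff₀ (norm_pos_iff.2 h0), one_mul]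
  refine le_of_sq_le_sq ?_ (norm_nonneg _)
  rw [norm_dd]
  have h1 : ‖(2 / 1000 : ℂ) - dd Y 0‖ ^ 2 = (1 / 1000) ^ 2 + (Y - 999 / 1000) ^ 2 := by
    rw [← Complex.normSq_eq_norm_sq, Complex.normSq_apply]
    simp only [dd, Complex.sub_re, Complex.sub_im]
    norm_num
    ring
  rw [h1]
  norm_num

lemma dd0_ge {Y : ℝ} (hY : 1 ≤ |Y|) : Y ^ 2 / 10 ^ 6 ≤ ‖dd Y 0‖ ^ 2 := by
  rw [norm_dd]
  have := Ysq hY
  nlinarith

lemma dd_sub (Y s : ℝ) : dd Y 0 - dd Y s = ((-s : ℝ) : ℂ) := by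
  apply Complex.ext <;> simp [dd]

/-- first differences -/
lemma first {Y : ℝ} (hY : 1 ≤ |Y|) (t : ℝ) :
    ‖(2 * ((1 / 1000 : ℂ) / dd Y (Y * t)) - 1) - (2 * ((1 / 1000 : ℂ) / dd Y 0) - 1)‖ ^ 2 ≤
      8 * 10 ^ 6 * (t ^ 2 / (1 + t ^ 2)) := by
  have h0 := dd_ne hY 0
  rw [mul_zero] at h0
  have h1 := dd_ne hY t
  have e : (2 * ((1 / 1000 : ℂ) / dd Y (Y * t)) - 1) - (2 * ((1 / 1000 : ℂ) / dd Y 0) - 1) =
      (1 / 500) * (dd Y 0 - dd Y (Y * t)) / (dd Y (Y * t) * dd Y 0) := by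
    field_simp
    ring
  rw [e, dd_sub, norm_div, norm_mul, norm_mul, Complex.norm_real, div_pow, mul_pow, mul_pow]
  have h2 := dd_ge hY t
  have h3 := dd0_ge hY
  have h4 := one_le_sq hY
  have h5 : ‖(1 / 500 : ℂ)‖ = 1 / 500 := by norm_num
  have h6 : ‖-(Y * t)‖ ^ 2 = Y ^ 2 * t ^ 2 := by
    rw [norm_neg, Real.norm_eq_abs, sq_abs]
    ring
  rw [h5, h6]
  have h7 : 0 < ‖dd Y (Y * t)‖ ^ 2 * ‖dd Y 0‖ ^ 2 := by
    have := norm_pos_iff.2 h0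
    have := norm_pos_iff.2 h1
    positivity
  rw [div_le_iff₀ h7]
  have h8 : 5 / 10 ^ 7 * (Y ^ 2 * (1 + t ^ 2)) * (Y ^ 2 / 10 ^ 6) ≤
      ‖dd Y (Y * t)‖ ^ 2 * ‖dd Y 0‖ ^ 2 := mul_le_mul h2 h3 (by positivity) (by positivity)
  have h9 : 0 ≤ 8 * 10 ^ 6 * (t ^ 2 / (1 + t ^ 2)) := by positivity
  refine le_trans ?_ (mul_le_mul_of_nonneg_left h8 h9)
  have h10 : 8 * 10 ^ 6 * (t ^ 2 / (1 + t ^ 2)) *
      (5 / 10 ^ 7 * (Y ^ 2 * (1 + t ^ 2)) * (Y ^ 2 / 10 ^ 6)) =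
      4 / 10 ^ 6 * (Y ^ 2 * t ^ 2) * Y ^ 2 := by
    field_simp
    ring
  rw [h10]
  have h11 : 0 ≤ Y ^ 2 * t ^ 2 := by positivity
  nlinarith

/-- second differences -/
lemma second {Y : ℝ} (hY : 1 ≤ |Y|) (t : ℝ) :
    ‖(2 * ((1 / 1000 : ℂ) / dd Y (Y * t)) - 1) + (2 * ((1 / 1000 : ℂ) / dd Y (Y * -t)) - 1) -
      2 * (2 * ((1 / 1000 : ℂ) / dd Y 0) - 1)‖ ≤ 8 * 10 ^ 6 * (t ^ 2 / (1 + t ^ 2)) := by
  have h0 := dd_ne hY 0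
  rw [mul_zero] at h0
  have h1 := dd_ne hY t
  have h1' := dd_ne hY (-t)
  have s1 : dd Y (Y * t) = dd Y 0 + ((Y * t : ℝ) : ℂ) := by
    apply Complex.ext <;> simp [dd, add_comm]
  have s2 : dd Y (Y * -t) = dd Y 0 - ((Y * t : ℝ) : ℂ) := by
    apply Complex.ext
    · simp [dd]
      ring
    · simp [dd]
  have e : (2 * ((1 / 1000 : ℂ) / dd Y (Y * t)) - 1) + (2 * ((1 / 1000 : ℂ) / dd Y (Y * -t)) - 1) -
      2 * (2 * ((1 / 1000 : ℂ) / dd Y 0) - 1) =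
      (1 / 250) * ((Y * t : ℝ) : ℂ) ^ 2 / (dd Y (Y * t) * dd Y (Y * -t) * dd Y 0) := by
    rw [s1] at h1
    rw [s2] at h1'
    rw [s1, s2]
    field_simp
    ring
  rw [e, norm_div, norm_mul, norm_mul, norm_mul, norm_pow, Complex.norm_real]
  have h2 := dd_ge hY t
  have h2' := dd_ge hY (-t)
  have h3 := dd0_ge hY
  have h4 := one_le_sq hY
  have h5 : ‖(1 / 250 : ℂ)‖ = 1 / 250 := by norm_num
  have h6 : ‖Y * t‖ ^ 2 = Y ^ 2 * t ^ 2 := by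
    rw [Real.norm_eq_abs, sq_abs]
    ring
  rw [h5, h6]
  have p0 := norm_pos_iff.2 h0
  have p1 := norm_pos_iff.2 h1
  have p2 := norm_pos_iff.2 h1'
  have h7 : 0 < ‖dd Y (Y * t)‖ * ‖dd Y (Y * -t)‖ * ‖dd Y 0‖ := by positivity
  rw [div_le_iff₀ h7]
  have h8 : 5 / 10 ^ 7 * (Y ^ 2 * (1 + t ^ 2)) ≤ ‖dd Y (Y * t)‖ * ‖dd Y (Y * -t)‖ := by
    refine le_of_sq_le_sq ?_ (by positivity)
    rw [mul_pow ‖dd Y (Y * t)‖, sq (5 / 10 ^ 7 * (Y ^ 2 * (1 + t ^ 2)))]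
    rw [neg_sq] at h2'
    exact mul_le_mul h2 h2' (by positivity) (by positivity)
  have h8' : 1 / 1000 ≤ ‖dd Y 0‖ := by
    refine le_of_sq_le_sq ?_ p0.le
    linarith
  have h8'' : 5 / 10 ^ 7 * (Y ^ 2 * (1 + t ^ 2)) * (1 / 1000) ≤
      ‖dd Y (Y * t)‖ * ‖dd Y (Y * -t)‖ * ‖dd Y 0‖ :=
    mul_le_mul h8 h8' (by positivity) (by positivity)
  have h9 : 0 ≤ 8 * 10 ^ 6 * (t ^ 2 / (1 + t ^ 2)) := by positivity
  refine le_trans ?_ (mul_le_mul_of_nonneg_left h8'' h9)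
  apply le_of_eq
  field_simp
  ring

lemma uu_eq (Y s : ℝ) : uu ((Y : ℂ) * I + ((s : ℝ) : ℂ)) = (1 / 1000 : ℂ) / dd Y s := by
  unfold uu
  congr 1
  apply Complex.ext
  · simp [dd]
  · simp [dd]

lemma Fq_eq (z : ℂ) : Fq z = (1 + (2 * uu z - 1)) * (g0 : ℂ) +
    (1 + (2 * uu z - 1)) ^ 2 * P1 (2 * uu z - 1) := by
  unfold Fq
  ring

end PHICx

open PHICx

theorem phic : PHIC := by
  intro Y t hY
  have u1 : uu ((Y : ℂ) * I + ((Y * t : ℝ) : ℂ)) = (1 / 1000 : ℂ) / dd Y (Y * t) := uu_eq _ _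
  have u2 : uu ((Y : ℂ) * I - ((Y * t : ℝ) : ℂ)) = (1 / 1000 : ℂ) / dd Y (Y * -t) := by
    rw [← uu_eq]
    congr 1
    push_cast
    ring
  have u3 : uu ((Y : ℂ) * I) = (1 / 1000 : ℂ) / dd Y 0 := by
    rw [← uu_eq]
    simp
  set a : ℂ := 2 * ((1 / 1000 : ℂ) / dd Y (Y * t)) - 1 with hadef
  set b : ℂ := 2 * ((1 / 1000 : ℂ) / dd Y (Y * -t)) - 1 with hbdef
  set c : ℂ := 2 * ((1 / 1000 : ℂ) / dd Y 0) - 1 with hcdef
  set X : ℝ := t ^ 2 / (1 + t ^ 2) with hX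
  have hX0 : 0 ≤ X := by positivity
  have ha : ‖a‖ ≤ 2415 / 1000 := w_le hY t
  have hb : ‖b‖ ≤ 2415 / 1000 := w_le hY (-t)
  have hc : ‖c‖ ≤ 1 := w0_le hY
  have d1 : ‖a - c‖ ^ 2 ≤ 8 * 10 ^ 6 * X := first hY t
  have d2 : ‖b - c‖ ^ 2 ≤ 8 * 10 ^ 6 * X := by
    have := first hY (-t)
    rwa [neg_sq] at this
  have d3 : ‖a + b - 2 * c‖ ≤ 8 * 10 ^ 6 * X := second hY t
  have hP := sec_P1 (r := 2415 / 1000) (δ := 8 * 10 ^ 6 * X) (by norm_num) ha hb hc (by positivity)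
    d3 d1 d2
  have hD : ‖Fq ((Y : ℂ) * I + ((Y * t : ℝ) : ℂ)) + Fq ((Y : ℂ) * I - ((Y * t : ℝ) : ℂ)) -
      2 * Fq ((Y : ℂ) * I)‖ ≤ 10 ^ 29 / 2 * X := by
    rw [Fq_eq, Fq_eq ((Y : ℂ) * I - _), Fq_eq ((Y : ℂ) * I), u1, u2, u3, ← hadef, ← hbdef, ← hcdef]
    have e : (1 + a) * (g0 : ℂ) + (1 + a) ^ 2 * P1 a + ((1 + b) * (g0 : ℂ) + (1 + b) ^ 2 * P1 b) -
        2 * ((1 + c) * (g0 : ℂ) + (1 + c) ^ 2 * P1 c) = (a + b - 2 * c) * (g0 : ℂ) +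
        ((1 + a) ^ 2 * P1 a + (1 + b) ^ 2 * P1 b - 2 * ((1 + c) ^ 2 * P1 c)) := by ring
    rw [e]
    have h1 : ‖(a + b - 2 * c) * (g0 : ℂ)‖ ≤ 8 * 10 ^ 6 * X * 1510 := by
      rw [norm_mul, Complex.norm_real]
      refine mul_le_mul d3 ?_ (norm_nonneg _) (by positivity)
      unfold g0
      norm_num
    refine (norm_add_le _ _).trans ((add_le_add h1 hP).trans ?_)
    have h2 : 8 * 10 ^ 6 * X * 1510 + 2⁻¹ * (3654 ^ 2 * (2 * (3136 * (2415 / 1000) ^ 28 *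
        (8 * 10 ^ 6 * X)))) = (8 * 10 ^ 6 * 1510 + 2⁻¹ * (3654 ^ 2 * (2 * (3136 *
          (2415 / 1000) ^ 28 * (8 * 10 ^ 6))))) * X := by ring
    rw [h2]
    refine mul_le_mul_of_nonneg_right ?_ hX0
    norm_num
  have h1 := (Complex.re_le_norm _).trans hD
  rw [Complex.sub_re] at h1
  have h2 : (2 * Fq ((Y : ℂ) * I)).re = 2 * (Fq ((Y : ℂ) * I)).re := by
    simp
  rw [h2] at h1
  linarith

end

end Pool.Agent.BLQ
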