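import Pool.Agent.Lib.BLQ.Defs

/-!
Project BLQ (MP_ef2672): the explicit perturbation, definitions and the statements of the rows PHIA,
PHIB, PHIC (helper25).
-/

open Complex MeasureTheory Finset Set

namespace Pool.Agent.BLQ

noncomputable section

/-- the weights -/
def hh (j : ℕ) : ℝ := ((j : ℝ) + 1) * (27 - (j : ℝ))

/-- `e^(i θ₀)` -/
def e0 : ℂ := (-119 + 120 * I) / 169

/-- `H` -/
def Hq (w : ℂ) : ℂ := ∑ j ∈ range 27, ((hh j : ℝ) : ℂ) * w ^ j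

/-- the monomial `(e0 w)^k / w` for `k ≥ 1` -/
def qq (k : ℕ) (w : ℂ) : ℂ := if k = 0 then 0 else e0 ^ k * w ^ (k - 1)

/-- the constant term -/
def g0 : ℝ := 754551 / 500

/-- `(Γ(e0 w) - g0) / (2 w)` -/
def P1 (w : ℂ) : ℂ := 2⁻¹ * ∑ j ∈ range 27, ∑ l ∈ range 27, ((hh j * hh l : ℝ) : ℂ) *
  (qq ((j : ℤ) - (l : ℤ) + 1).natAbs w - 991 / 1000 * qq ((j : ℤ) - (l : ℤ)).natAbs w)

/-- `d / (z + d - i c)`, `d = 1/1000`, `c = 999/1000` -/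
def uu (z : ℂ) : ℂ := (1 / 1000) / (z + 1 / 1000 - 999 / 1000 * I)

/-- one half of the perturbation -/
def Fq (z : ℂ) : ℂ := 2 * uu z * (g0 : ℂ) + 4 * uu z ^ 2 * P1 (2 * uu z - 1)

/-- the perturbation -/
def phq (z : ℂ) : ℂ := Fq z + (starRingEnd ℂ) (Fq ((starRingEnd ℂ) z))

/-- Q04a. On the imaginary axis. -/
def PHIA : Prop := ∀ Y : ℝ, (Fq ((Y : ℂ) * I)).re ≤ 250000 ∧
  ((Y ≤ 1000 / 999 ∨ 1000 / 998 ≤ Y) → (Fq ((Y : ℂ) * I)).re ≤ 0)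

/-- Q04b. On `Om`. -/
def PHIB : Prop := ∃ A : ℝ, 0 ≤ A ∧ ∀ z ∈ Om, DifferentiableAt ℂ Fq z ∧ ‖Fq z‖ ≤ A ∧
  (1 ≤ ‖z‖ → ‖Fq z - (754551 / 250000) / z‖ ≤ A / ‖z‖ ^ 2)

/-- Q04c. Second differences. -/
def PHIC : Prop := ∀ Y t : ℝ, 1 ≤ |Y| →
  (Fq ((Y : ℂ) * I + ((Y * t : ℝ) : ℂ)) + Fq ((Y : ℂ) * I - ((Y * t : ℝ) : ℂ))).re ≤
    2 * (Fq ((Y : ℂ) * I)).re + 10 ^ 29 / 2 * (t ^ 2 / (1 + t ^ 2))

end

end Pool.Agent.BLQ
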